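import Pool.Agent.Run7.h178.SL.Cor

/-! Proper subcomplexes of acyclic 2-complexes with locally indicable fundamental groups are aspherical
(the proofs of `Pool.Agent.R655.LI.Howie` with the hypothesis `Bijective L.bdry` in place of
`L.Contractible`). -/

set_option autoImplicit false

open Pool.Agent.R655.LI Function
open Pool.Agent.H40R2.Zd (fs fs_single)

namespace Run7.h178.SL

section bij
variable {L : Cx}

/-- The classes of the relators of an acyclic complex are independent over every ring. -/
lemma clk_indep' (hL : Bijective L.bdry) (k : Type) [CommRing k] {S : Type} [Fintype S]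
    (u : S → L.R) (hu : Injective u) (x : S → k)
    (hx : ∀ v, ∑ s, x s * clk k L (L.r (u s)) v = 0) : x = 0 := by
  classical
  let e := LinearEquiv.ofBijective L.bdry hL
  -- the inverse, coordinatewise
  have he : ∀ (j j' : L.R), (∑ v ∈ (expSum L.V (L.r j)).toAdd.support,
      (expSum L.V (L.r j)).toAdd v * e.symm (Finsupp.single v 1) j') =
        (Finsupp.single j (1 : ℤ)) j' := by
    intro j j'
    have h1 : e (Finsupp.single j 1) = (expSum L.V (L.r j)).toAdd := by
      change L.bdry (Finsupp.single j 1) = _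
      simp [Cx.bdry]
    have h2 : (expSum L.V (L.r j)).toAdd = ∑ v ∈ (expSum L.V (L.r j)).toAdd.support,
        (expSum L.V (L.r j)).toAdd v • Finsupp.single v (1 : ℤ) := by
      conv_lhs => rw [← Finsupp.sum_single (expSum L.V (L.r j)).toAdd]
      simp [Finsupp.sum]
    have h3 := congrArg e.symm h1
    rw [LinearEquiv.symm_apply_apply] at h3
    rw [h3]
    conv_rhs => rw [h2]
    rw [map_sum, Finsupp.finsetSum_apply]
    refine Finset.sum_congr rfl fun v _ => ?_
    rw [map_smul, Finsupp.smul_apply, smul_eq_mul]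
  -- a finite set of all occurring letters
  let T : Finset L.V := Finset.univ.biUnion fun s : S => (expSum L.V (L.r (u s))).toAdd.support
  funext s₀
  have h4 : ∑ v ∈ T, (∑ s, x s * clk k L (L.r (u s)) v) *
      ((e.symm (Finsupp.single v 1) (u s₀) : ℤ) : k) = 0 := by
    refine Finset.sum_eq_zero fun v _ => ?_
    rw [hx v, zero_mul]
  have h5 : ∑ v ∈ T, (∑ s, x s * clk k L (L.r (u s)) v) *
      ((e.symm (Finsupp.single v 1) (u s₀) : ℤ) : k) =
      ∑ s, x s * ((Finsupp.single (u s) (1 : ℤ) (u s₀) : ℤ) : k) := by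
    simp_rw [Finset.sum_mul]
    rw [Finset.sum_comm]
    refine Finset.sum_congr rfl fun s _ => ?_
    rw [← he (u s) (u s₀)]
    have h6 : ∑ v ∈ (expSum L.V (L.r (u s))).toAdd.support,
        (expSum L.V (L.r (u s))).toAdd v * e.symm (Finsupp.single v 1) (u s₀) =
        ∑ v ∈ T, (expSum L.V (L.r (u s))).toAdd v * e.symm (Finsupp.single v 1) (u s₀) := by
      refine Finset.sum_subset ?_ ?_
      · exact Finset.subset_biUnion_of_mem (fun s : S => (expSum L.V (L.r (u s))).toAdd.support)
          (Finset.mem_univ s)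
      · intro v _ hv
        rw [Finsupp.notMem_support_iff.1 hv, zero_mul]
    rw [h6, Int.cast_sum, Finset.mul_sum]
    refine Finset.sum_congr rfl fun v _ => ?_
    rw [Int.cast_mul]
    unfold clk
    ring
  rw [h5] at h4
  rw [Finset.sum_eq_single s₀] at h4
  · simpa using h4
  · intro s _ hs
    rw [Finsupp.single_eq_of_ne (fun h => hs (hu h).symm), Int.cast_zero, mul_zero]
  · intro h
    exact absurd (Finset.mem_univ _) h

end bij

section howie
variable {K L : Cx} (i : Sub K L) (hL : Bijective L.bdry)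

include i hL in
theorem howie' (k : Type) [Field k]
    (hG : Pool.Agent.H26R2.IdemLI.LocInd k (⊤ : Subgroup K.Pi))
    (c : K.R →₀ MonoidAlgebra ℤ K.Pi)
    (hc : Finsupp.linearCombination (MonoidAlgebra ℤ K.Pi) (fun j => fox K (K.r j)) c = 0)
    (j : K.R) : cc k K.Pi (c j) = 0 := by
  classical
  by_cases hj : j ∈ c.support
  swap
  · rw [Finsupp.notMem_support_iff.1 hj, map_zero]
  let S := {j // j ∈ c.support}
  let A : Matrix S K.V (MonoidAlgebra k K.Pi) := fun s v => cc k K.Pi (fox K (K.r s.1) v)
  let r : S → MonoidAlgebra k K.Pi := fun s => cc k K.Pi (c s.1)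
  have hker : (1 : K.Pi →* Unit).ker = ⊤ := MonoidHom.ker_one
  have hr : Matrix.vecMul r A = 0 := by
    funext v
    have h1 := congrFun hc v
    rw [Finsupp.linearCombination_apply, Finsupp.sum, Finset.sum_apply] at h1
    have h2 := congrArg (cc k K.Pi) h1
    rw [map_sum] at h2
    change ∑ s : S, r s * A s v = 0
    rw [← Finset.sum_coe_sort] at h2
    rw [← map_zero (cc k K.Pi)]
    refine Eq.trans ?_ h2
    refine Finset.sum_congr rfl fun s _ => ?_
    rw [Pi.smul_apply, smul_eq_mul, map_mul]
  have h0 := Pool.Agent.H26R2.IdemLI.inj_of_map (1 : K.Pi →* Unit) (by rw [hker]; exact hG) A ?_ r hr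
  · exact congrFun h0 ⟨j, hj⟩
  · intro x hx
    have h3 : ∀ v : K.V, ∑ s : S, epk k (x s) * clk k K (K.r s.1) v = 0 := by
      intro v
      have h4 := congrArg (epk k) (congrFun hx v)
      change epk k (∑ s : S, x s * fs k (1 : K.Pi →* Unit) (A s v)) = epk k 0 at h4
      rw [map_sum, map_zero] at h4
      rw [← h4]
      refine Finset.sum_congr rfl fun s _ => ?_
      rw [map_mul, aug_comp, fox_aug]
    have h5 := clk_indep' hL k (fun s : S => i.c s.1)
      (fun a b h => Subtype.ext (i.c.injective h)) (fun s => epk k (x s)) (by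
        intro v
        by_cases hv : v ∈ Set.range i.v
        · obtain ⟨u, rfl⟩ := hv
          rw [← h3 u]
          refine Finset.sum_congr rfl fun s _ => ?_
          rw [← i.comm, clk_sub]
        · refine Finset.sum_eq_zero fun s _ => ?_
          rw [← i.comm, clk_sub' i k _ v hv, mul_zero])
    funext s
    exact epk_inj k _ (congrFun h5 s)

end howie

theorem asph_bij {K L : Cx} (i : Sub K L) (hL : Bijective L.bdry) (hK : LocInd K.Pi) : Asph K := by
  unfold Asph
  rw [injective_iff_map_eq_zero]
  intro c hc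
  have hG : Pool.Agent.H26R2.IdemLI.LocInd ℚ (⊤ : Subgroup K.Pi) := by
    intro H _ hfg hH
    obtain ⟨f, hf⟩ := hK H hfg hH
    let z : Multiplicative ℤ →* Multiplicative ℚ :=
      AddMonoidHom.toMultiplicative (Int.castAddHom ℚ)
    refine ⟨z.comp f, fun h => ?_⟩
    obtain ⟨x, hx⟩ := hf (Multiplicative.ofAdd 1)
    have h1 := DFunLike.congr_fun h x
    have h2 : ((Multiplicative.toAdd (f x) : ℤ) : ℚ) = 0 := congrArg Multiplicative.toAdd h1
    rw [hx] at h2
    norm_num at h2
  ext j g
  have h1 := howie' i hL ℚ hG c hc j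
  have h2 := congrArg (fun y => MonoidAlgebra.coeff y g) h1
  have h3 : (((c j).coeff g : ℤ) : ℚ) = 0 := by
    simpa [cc, MonoidAlgebra.coeff_mapRingHom] using h2
  have h4 := Int.cast_eq_zero.1 h3
  simpa using h4

/-- acyclic complexes after slides -/
theorem acyclic4 (V R : Type) [Fintype V] [Fintype R] [DecidableEq R] (r : R → FreeGroup V)
    (hc : Fintype.card R = Fintype.card V)
    (hr : Submodule.span ℤ (Set.range fun i => (expSum V (r i)).toAdd) = ⊤) :
    ∃ r' : R → FreeGroup V, QEq r r' ∧
      Subgroup.normalClosure (Set.range r') = Subgroup.normalClosure (Set.range r) ∧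
      Bijective (Cx.mk V R r').bdry ∧
      (∀ e : R, FgFreeByInt ((Cx.mk V R r').del e).Pi) ∧
      ∀ (K : Cx) (s : Sub K (Cx.mk V R r')), ¬ Surjective s.c →
        FreeByInt K.Pi ∧ LocInd K.Pi ∧ Asph K := by
  obtain ⟨r', h1, h2, h3⟩ := words2 Run7.h959.SL.t_SLIDE Run7.h216.SL.t_GAUSS
    (Fintype.equivOfCardEq hc) r hr
  have hb : Bijective (Cx.mk V R r').bdry := by
    have h4 : ∀ c, (Cx.mk V R r').bdry c = Finsupp.mapDomain (Fintype.equivOfCardEq hc) c := by
      intro c
      show Finsupp.linearCombination ℤ (fun j => (expSum V (r' j)).toAdd) c = _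
      rw [Finsupp.linearCombination_apply, Finsupp.mapDomain]
      refine Finsupp.sum_congr fun i _ => ?_
      rw [h2, Finsupp.smul_single, smul_eq_mul, mul_one]
    constructor
    · intro x y hxy
      rw [h4, h4] at hxy
      exact Finsupp.mapDomain_injective (Fintype.equivOfCardEq hc).injective hxy
    · intro y
      obtain ⟨x, hx⟩ := Finsupp.mapDomain_surjective (M := ℤ) (Fintype.equivOfCardEq hc).surjective y
      exact ⟨x, (h4 x).trans hx⟩
  refine ⟨r', h1, (Run7.h959.SL.t_SLIDE R (FreeGroup V)).2.1 r r' h1, hb,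
    del2 t_FREE V R _ r' h3, fun K s hs => ?_⟩
  have h5 := subs2 t_FREE V R _ r' h3 K s hs
  exact ⟨h5, locInd_of_freeByInt h5, asph_bij s hb (locInd_of_freeByInt h5)⟩

end Run7.h178.SL
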