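import Pool.Agent.Run7.h178.SL.Fin2

/-! Corollaries: perfect groups, torsion. -/

set_option autoImplicit false

open Pool.Agent.R655.LI Function

namespace Run7.h178.SL

theorem expSum_map {A B : Type} (f : A → B) (w : FreeGroup A) :
    (expSum B (FreeGroup.map f w)).toAdd = Finsupp.mapDomain f (expSum A w).toAdd := by
  have : (expSum B).comp (FreeGroup.map f) =
      (AddMonoidHom.toMultiplicative (Finsupp.mapDomain.addMonoidHom f)).comp (expSum A) := by
    ext v
    simp [expSum]
  exact congrArg Multiplicative.toAdd (DFunLike.congr_fun this w)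

/-- the second homology of a subcomplex of a 2-complex without second homology is zero -/
theorem sub_bdry_inj {K L : Cx} (s : Sub K L) (h : Injective L.bdry) : Injective K.bdry := by
  have e : ∀ x : K.R →₀ ℤ, L.bdry (Finsupp.mapDomain s.c x) = Finsupp.mapDomain s.v (K.bdry x) := by
    intro x
    induction x using Finsupp.induction_linear with
    | zero => simp
    | add x y hx hy =>
      rw [Finsupp.mapDomain_add, map_add, hx, hy, map_add, Finsupp.mapDomain_add]
    | single j a =>
      rw [Finsupp.mapDomain_single]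
      simp only [Cx.bdry, Finsupp.linearCombination_single]
      rw [← s.comm, expSum_map, Finsupp.mapDomain_smul]
  intro x y hxy
  have h1 : Finsupp.mapDomain s.c x = Finsupp.mapDomain s.c y := h (by rw [e, e, hxy])
  exact Finsupp.mapDomain_injective s.c.injective h1

theorem pi_fg {K : Cx} [Finite K.V] : Group.FG K.Pi := by
  rw [Group.fg_iff]
  exact ⟨Set.range (PresentedGroup.of : K.V → K.Pi), PresentedGroup.closure_range_of _,
    Set.finite_range _⟩

/-- finitely generated, perfect and locally indicable groups are trivial -/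
theorem eq_one_of_perfect {G : Type} [Group G] (hfg : Group.FG G) (h : LocInd G)
    (hp : commutator G = ⊤) : ∀ x : G, x = 1 := by
  by_contra hne
  push Not at hne
  obtain ⟨x, hx⟩ := hne
  have h1 : (⊤ : Subgroup G) ≠ ⊥ := fun h0 => hx ((Subgroup.eq_bot_iff_forall _).1 h0 x trivial)
  obtain ⟨f, hf⟩ := h ⊤ (Group.fg_def.1 hfg) h1
  let g : G →* Multiplicative ℤ := f.comp (Subgroup.topEquiv (G := G)).symm.toMonoidHom
  have hg : Surjective g := hf.comp (Subgroup.topEquiv (G := G)).symm.surjective
  have h2 : commutator G ≤ g.ker := Abelianization.commutator_subset_ker g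
  rw [hp] at h2
  obtain ⟨y, hy⟩ := hg (Multiplicative.ofAdd 1)
  have h3 : g y = 1 := h2 (Subgroup.mem_top y)
  rw [h3] at hy
  exact absurd hy (by decide)

/-- the only element of finite order is `1` -/
def TorsFree (G : Type) [Group G] : Prop := ∀ (x : G) (n : ℕ), 0 < n → x ^ n = 1 → x = 1

theorem torsFree_of_locInd {G : Type} [Group G] (h : LocInd G) : TorsFree G := by
  intro x n hn hx
  by_contra hne
  obtain ⟨f, hf⟩ := h (Subgroup.zpowers x) ⟨{x}, by rw [Finset.coe_singleton,
    Subgroup.zpowers_eq_closure]⟩ (by rwa [Ne, Subgroup.zpowers_eq_bot])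
  have h1 : f ⟨x, Subgroup.mem_zpowers x⟩ = 1 := by
    have h2 : f ⟨x, Subgroup.mem_zpowers x⟩ ^ n = 1 := by
      rw [← map_pow]
      have : (⟨x, Subgroup.mem_zpowers x⟩ : Subgroup.zpowers x) ^ n = 1 := Subtype.ext hx
      rw [this, map_one]
    have h3 : n • (f ⟨x, Subgroup.mem_zpowers x⟩).toAdd = 0 := congrArg Multiplicative.toAdd h2
    have h4 : (f ⟨x, Subgroup.mem_zpowers x⟩).toAdd = 0 := by
      rw [nsmul_eq_mul] at h3
      rcases mul_eq_zero.1 h3 with h5 | h5
      · exact absurd (Nat.cast_eq_zero.1 h5) hn.ne'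
      · exact h5
    exact h4
  obtain ⟨y, hy⟩ := hf (Multiplicative.ofAdd 1)
  obtain ⟨k, hk⟩ := Subgroup.mem_zpowers_iff.1 y.2
  have h6 : y = (⟨x, Subgroup.mem_zpowers x⟩ : Subgroup.zpowers x) ^ k := Subtype.ext hk.symm
  rw [h6, map_zpow, h1, one_zpow] at hy
  exact absurd hy (by decide)

/-- subcomplexes with a perfect fundamental group -/
theorem contractible_of_perfect {K L : Cx} (s : Sub K L) [Finite L.V] (hL : Injective L.bdry)
    (h : LocInd K.Pi) (hp : commutator K.Pi = ⊤) : K.Contractible := by
  have : Finite K.V := Finite.of_injective s.v s.v.injective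
  exact ⟨eq_one_of_perfect pi_fg h hp, sub_bdry_inj s hL⟩

end Run7.h178.SL
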