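import Pool.Agent.Run7.h178.SL.Stm2
import Pool.Agent.Run7.h781.SL.LI

/-! Piece FREE of the interface `Run7/h178/SL/Stm2`: the kernel is free. -/

set_option autoImplicit false

open Pool.Agent.R655.LI

namespace Run7.h178.SL

open Run7.h781.SL (NP act act_of bk bk_of bk_act RW RW_bk RW_v0 RW_of word_eq)
open FreeGroup (of)

section

variable {V : Type} (v₀ : V)

/-- letters with heights in `[lo, hi]` -/
def midP (lo hi : ℤ) : Subgroup (NP v₀) :=
  Subgroup.closure {x | ∃ v h, lo ≤ h ∧ h ≤ hi ∧ x = of (v, h)}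

theorem mid_lift {lo hi : ℤ} {u : NN V} (hu : u ∈ mid v₀ lo hi) :
    ∃ u' ∈ midP v₀ lo hi, bk v₀ u' = back v₀ u := by
  induction hu using Subgroup.closure_induction with
  | mem x hx =>
    obtain ⟨v, h, hv, hh, hh', rfl⟩ := hx
    refine ⟨of (⟨v, hv⟩, h), Subgroup.subset_closure ⟨⟨v, hv⟩, h, hh, hh', rfl⟩, ?_⟩
    rw [bk_of, back, FreeGroup.lift_apply_of]
  | one => exact ⟨1, Subgroup.one_mem _, by rw [map_one, map_one]⟩
  | mul x y _ _ hx hy =>
    obtain ⟨x', hx', ex⟩ := hx
    obtain ⟨y', hy', ey⟩ := hy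
    exact ⟨x' * y', Subgroup.mul_mem _ hx' hy', by rw [map_mul, map_mul, ex, ey]⟩
  | inv x _ hx =>
    obtain ⟨x', hx', ex⟩ := hx
    exact ⟨x'⁻¹, Subgroup.inv_mem _ hx', by rw [map_inv, map_inv, ex]⟩

theorem act_midP {lo hi : ℤ} {u : NP v₀} (hu : u ∈ midP v₀ lo hi) (e : Multiplicative ℤ) :
    act v₀ e u ∈ midP v₀ (lo + e.toAdd) (hi + e.toAdd) := by
  induction hu using Subgroup.closure_induction with
  | mem x hx =>
    obtain ⟨v, h, hh, hh', rfl⟩ := hx
    rw [act_of]
    exact Subgroup.subset_closure ⟨v, h + e.toAdd, by omega, by omega, rfl⟩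
  | one => rw [map_one]; exact Subgroup.one_mem _
  | mul x y _ _ hx hy => rw [map_mul]; exact Subgroup.mul_mem _ hx hy
  | inv x _ hx => rw [map_inv]; exact Subgroup.inv_mem _ hx

/-- the order of the recursion -/
def mu (p : {v : V // v ≠ v₀} × ℤ) : ℕ ×ₗ ℕ :=
  if 0 ≤ p.2 then toLex (0, p.2.toNat) else toLex (1, (-p.2).toNat)

theorem mu_lt_up {v w : {v : V // v ≠ v₀}} {h H : ℤ} (h0 : 0 ≤ h) (h1 : h < H) :
    mu v₀ (v, h) < mu v₀ (w, H) := by
  unfold mu
  simp only
  rw [if_pos h0, if_pos (by omega)]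
  refine Prod.Lex.toLex_lt_toLex.2 (Or.inr ⟨rfl, ?_⟩)
  show h.toNat < H.toNat
  omega

theorem mu_lt_down {v w : {v : V // v ≠ v₀}} {h H : ℤ} (h0 : H < 0) (h1 : H < h) :
    mu v₀ (v, h) < mu v₀ (w, H) := by
  unfold mu
  simp only
  rw [if_neg (show ¬ 0 ≤ H by omega)]
  by_cases h2 : 0 ≤ h
  · rw [if_pos h2]
    exact Prod.Lex.toLex_lt_toLex.2 (Or.inl (show (0 : ℕ) < 1 by norm_num))
  · rw [if_neg h2]
    refine Prod.Lex.toLex_lt_toLex.2 (Or.inr ⟨rfl, ?_⟩)
    show (-h).toNat < (-H).toNat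
    omega

/-- words in the letters before `p` -/
def low (p : {v : V // v ≠ v₀} × ℤ) : Subgroup (NP v₀) :=
  Subgroup.closure {x | ∃ q, mu v₀ q < mu v₀ p ∧ x = of q}

end

/-- the data of the relators -/
structure Dat2 {V R : Type} (v₀ : V) (β : R → {v : V // v ≠ v₀}) (r : R → FreeGroup V)
    (B T : R → ℤ) (ζ u v u' v' : R → NP v₀) : Prop where
  hBT : ∀ i, B i < T i
  hu : ∀ i, u i ∈ midP v₀ (B i) (T i - 1)
  hv : ∀ i, v i ∈ midP v₀ (B i) (T i - 1)
  hu' : ∀ i, u' i ∈ midP v₀ (B i + 1) (T i)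
  hv' : ∀ i, v' i ∈ midP v₀ (B i + 1) (T i)
  h1 : ∀ i, ζ i = u i * (of (β i, T i))⁻¹ * v i
  h2 : ∀ i, ζ i = u' i * of (β i, B i) * v' i
  hr : ∀ i, bk v₀ (ζ i) = r i

section

variable {V R : Type} {v₀ : V} {β : R → {v : V // v ≠ v₀}} {r : R → FreeGroup V} {B T : R → ℤ}
  {ζ u v u' v' : R → NP v₀}

theorem cells2 (hr : ∀ i, bk v₀ (ζ i) = r i) (w : FreeGroup V)
    (hw : w ∈ Subgroup.normalClosure (Set.range r)) :
    ∃ y : NP v₀, RW v₀ w = SemidirectProduct.inl y ∧
      ∀ Φ : NP v₀ →* NP v₀, (∀ i e, Φ (act v₀ e (ζ i)) = 1) → Φ y = 1 := by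
  have hw' : w ∈ Subgroup.closure (Group.conjugatesOfSet (Set.range r)) := hw
  induction hw' using Subgroup.closure_induction with
  | mem x hx =>
    obtain ⟨r', ⟨i, rfl⟩, hr'⟩ := Group.mem_conjugatesOfSet_iff.1 hx
    obtain ⟨g, rfl⟩ := isConj_iff.1 hr'
    refine ⟨(RW v₀ g).left * act v₀ (RW v₀ g).right (ζ i) * ((RW v₀ g).left)⁻¹, ?_, ?_⟩
    · have h1 : RW v₀ (r i) = SemidirectProduct.inl (ζ i) := by
        rw [← hr i, RW_bk]
      have h2 : RW v₀ g = SemidirectProduct.inl (RW v₀ g).left *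
          SemidirectProduct.inr (RW v₀ g).right :=
        (SemidirectProduct.inl_left_mul_inr_right _).symm
      rw [map_mul, map_mul, map_inv, h1]
      conv_lhs => rw [h2]
      rw [map_mul, map_mul, map_inv, SemidirectProduct.inl_aut, map_inv]
      group
    · intro Φ hΦ
      rw [map_mul, map_mul, hΦ, mul_one, ← map_mul, mul_inv_cancel, map_one]
  | one => exact ⟨1, by rw [map_one, map_one], fun Φ _ => map_one _⟩
  | mul x y hx hy ihx ihy =>
    obtain ⟨x', ex, hS⟩ := ihx hx
    obtain ⟨y', ey, hS'⟩ := ihy hy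
    exact ⟨x' * y', by rw [map_mul, map_mul, ex, ey], fun Φ hΦ => by
      rw [map_mul, hS Φ hΦ, hS' Φ hΦ, one_mul]⟩
  | inv x hx ihx =>
    obtain ⟨x', ex, hS⟩ := ihx hx
    exact ⟨x'⁻¹, by rw [map_inv, map_inv, ex], fun Φ hΦ => by rw [map_inv, hS Φ hΦ, inv_one]⟩

open Classical in
/-- the endomorphism that kills all the shifted relators -/
theorem exists_retr (D : Dat2 v₀ β r B T ζ u v u' v') (hβ : Function.Injective β) :
    ∃ Φ : NP v₀ →* NP v₀, (∀ i e, Φ (act v₀ e (ζ i)) = 1) ∧
      (∀ y, PresentedGroup.mk (Set.range r) (bk v₀ (Φ y)) =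
        PresentedGroup.mk (Set.range r) (bk v₀ y)) ∧
      ∀ p, Φ (of p) ∈ Subgroup.closure {x : NP v₀ | ∃ q : {v : V // v ≠ v₀} × ℤ,
        (∀ i, β i = q.1 → 0 ≤ q.2 ∧ q.2 < T i - B i) ∧ x = of q} := by
  classical
  let up : ({v : V // v ≠ v₀} × ℤ) → Prop := fun p => ∃ i, β i = p.1 ∧ T i - B i ≤ p.2
  let dn : ({v : V // v ≠ v₀} × ℤ) → Prop := fun p => ∃ i, β i = p.1 ∧ p.2 < 0
  let W : ({v : V // v ≠ v₀} × ℤ) → NP v₀ := fun p =>
    if h : up p then act v₀ (Multiplicative.ofAdd (p.2 - T h.choose)) (v h.choose * u h.choose)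
    else if h : dn p then
      (act v₀ (Multiplicative.ofAdd (p.2 - B h.choose)) (v' h.choose * u' h.choose))⁻¹
    else of p
  have hWup : ∀ i (H : ℤ), T i - B i ≤ H →
      W (β i, H) = act v₀ (Multiplicative.ofAdd (H - T i)) (v i * u i) := by
    intro i H hH
    have h : up (β i, H) := ⟨i, rfl, hH⟩
    have hi : h.choose = i := hβ h.choose_spec.1
    show (if h : up (β i, H) then _ else _) = _
    rw [dif_pos h, hi]
  have hnup : ∀ p : {v : V // v ≠ v₀} × ℤ, p.2 < 0 → ¬ up p := by
    rintro p hp ⟨i, -, hi⟩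
    have := D.hBT i
    omega
  have hWdn : ∀ i (H : ℤ), H < 0 →
      W (β i, H) = (act v₀ (Multiplicative.ofAdd (H - B i)) (v' i * u' i))⁻¹ := by
    intro i H hH
    have h : dn (β i, H) := ⟨i, rfl, hH⟩
    have hi : h.choose = i := hβ h.choose_spec.1
    show (if h : up (β i, H) then _ else if h : dn (β i, H) then _ else _) = _
    rw [dif_neg (hnup _ hH), dif_pos h, hi]
  have hmid : ∀ (p : {v : V // v ≠ v₀} × ℤ) (lo hi : ℤ),
      (∀ w h, lo ≤ h → h ≤ hi → mu v₀ (w, h) < mu v₀ p) → midP v₀ lo hi ≤ low v₀ p := by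
    intro p lo hi h
    apply Subgroup.closure_mono
    rintro x ⟨w, k, hk, hk', rfl⟩
    exact ⟨(w, k), h w k hk hk', rfl⟩
  have hWlow : ∀ p, up p ∨ dn p → W p ∈ low v₀ p := by
    rintro ⟨w, H⟩ (⟨i, hi, hH⟩ | ⟨i, hi, hH⟩)
    · simp only at hi hH
      subst hi
      rw [hWup i H hH]
      have h1 := act_midP v₀ (Subgroup.mul_mem _ (D.hv i) (D.hu i)) (Multiplicative.ofAdd (H - T i))
      refine hmid _ _ _ (fun w h hl hh => mu_lt_up v₀ ?_ ?_) h1
      · rw [toAdd_ofAdd] at hl
        omega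
      · rw [toAdd_ofAdd] at hh
        omega
    · simp only at hi hH
      subst hi
      rw [hWdn i H hH]
      have h1 := act_midP v₀ (Subgroup.mul_mem _ (D.hv' i) (D.hu' i))
        (Multiplicative.ofAdd (H - B i))
      refine Subgroup.inv_mem _ (hmid _ _ _ (fun w h hl hh => mu_lt_down v₀ hH ?_) h1)
      rw [toAdd_ofAdd] at hl
      omega
  have wf : WellFounded fun p q : {v : V // v ≠ v₀} × ℤ => mu v₀ p < mu v₀ q :=
    InvImage.wf (mu v₀) wellFounded_lt
  let F : (p : {v : V // v ≠ v₀} × ℤ) → ((q : {v : V // v ≠ v₀} × ℤ) → mu v₀ q < mu v₀ p → NP v₀) →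
      NP v₀ := fun p rec =>
    if up p ∨ dn p then FreeGroup.lift (fun q => if h : mu v₀ q < mu v₀ p then rec q h else 1) (W p)
    else of p
  let Φ₀ : ({v : V // v ≠ v₀} × ℤ) → NP v₀ := wf.fix F
  have hΦ₀ : ∀ p, Φ₀ p = F p fun q _ => Φ₀ q := fun p => wf.fix_eq F p
  let Φ : NP v₀ →* NP v₀ := FreeGroup.lift Φ₀
  have hof : ∀ p, Φ (of p) = Φ₀ p := fun p => FreeGroup.lift_apply_of
  have hagree : ∀ p, ∀ y ∈ low v₀ p,
      FreeGroup.lift (fun q => if mu v₀ q < mu v₀ p then Φ₀ q else 1) y = Φ y := by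
    intro p y hy
    induction hy using Subgroup.closure_induction with
    | mem x hx =>
      obtain ⟨q, hq, rfl⟩ := hx
      rw [FreeGroup.lift_apply_of, if_pos hq, hof]
    | one => rw [map_one, map_one]
    | mul x y _ _ h1 h2 => rw [map_mul, map_mul, h1, h2]
    | inv x _ h1 => rw [map_inv, map_inv, h1]
  have hbas : ∀ p, ¬ (up p ∨ dn p) → Φ (of p) = of p := by
    intro p hp
    rw [hof, hΦ₀]
    show (if up p ∨ dn p then _ else _) = _
    rw [if_neg hp]
  have hrec : ∀ p, up p ∨ dn p → Φ (of p) = Φ (W p) := by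
    intro p hp
    rw [hof, hΦ₀]
    show (if up p ∨ dn p then FreeGroup.lift (fun q => if h : mu v₀ q < mu v₀ p then Φ₀ q else 1)
      (W p) else _) = _
    rw [if_pos hp, ← hagree p _ (hWlow p hp)]
    simp only [dite_eq_ite]
  have act1 : ∀ (i : R) (e : Multiplicative ℤ), act v₀ e (ζ i) =
      act v₀ e (u i) * (of (β i, T i + e.toAdd))⁻¹ * act v₀ e (v i) := by
    intro i e
    rw [D.h1 i, map_mul, map_mul, map_inv, act_of]
  have act2 : ∀ (i : R) (e : Multiplicative ℤ), act v₀ e (ζ i) =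
      act v₀ e (u' i) * of (β i, B i + e.toAdd) * act v₀ e (v' i) := by
    intro i e
    rw [D.h2 i, map_mul, map_mul, act_of]
  refine ⟨Φ, ?_, ?_, ?_⟩
  · intro i e
    by_cases hB : 0 ≤ B i + e.toAdd
    · have hH : T i - B i ≤ T i + e.toAdd := by omega
      have h1 := hrec (β i, T i + e.toAdd) (Or.inl ⟨i, rfl, hH⟩)
      rw [hWup i _ hH] at h1
      have h2 : Multiplicative.ofAdd (T i + e.toAdd - T i) = e := by
        apply Multiplicative.toAdd.injective
        rw [toAdd_ofAdd]
        ring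
      rw [h2, map_mul, map_mul] at h1
      rw [act1, map_mul, map_mul, map_inv, h1]
      group
    · have hH : B i + e.toAdd < 0 := by omega
      have h1 := hrec (β i, B i + e.toAdd) (Or.inr ⟨i, rfl, hH⟩)
      rw [hWdn i _ hH] at h1
      have h2 : Multiplicative.ofAdd (B i + e.toAdd - B i) = e := by
        apply Multiplicative.toAdd.injective
        rw [toAdd_ofAdd]
        ring
      rw [h2, map_inv, map_mul, map_mul] at h1
      rw [act2, map_mul, map_mul, h1]
      group
  · have hW : ∀ p, PresentedGroup.mk (Set.range r) (bk v₀ (W p)) =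
        PresentedGroup.mk (Set.range r) (bk v₀ (of p)) := by
      have hrel : ∀ i (e : Multiplicative ℤ),
          PresentedGroup.mk (Set.range r) (bk v₀ (act v₀ e (ζ i))) = 1 := by
        intro i e
        rw [bk_act, D.hr i, map_mul, map_mul, map_inv]
        have h5 : PresentedGroup.mk (Set.range r) (r i) = 1 :=
          PresentedGroup.mk_eq_one_iff.2 (Subgroup.subset_normalClosure ⟨i, rfl⟩)
        rw [h5]
        group
      rintro ⟨w, H⟩
      by_cases h : up (w, H)
      · obtain ⟨i, hi, hH⟩ := h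
        simp only at hi hH
        subst hi
        rw [hWup i H hH]
        have h3 := hrel i (Multiplicative.ofAdd (H - T i))
        rw [act1] at h3
        have h4 : T i + (Multiplicative.ofAdd (H - T i)).toAdd = H := by
          rw [toAdd_ofAdd]; ring
        rw [h4] at h3
        simp only [map_mul, map_inv] at h3 ⊢
        generalize PresentedGroup.mk (Set.range r) (bk v₀ (of (β i, H))) = X at h3 ⊢
        generalize PresentedGroup.mk (Set.range r) (bk v₀ ((act v₀ (Multiplicative.ofAdd (H - T i)))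
          (u i))) = Y at h3 ⊢
        generalize PresentedGroup.mk (Set.range r) (bk v₀ ((act v₀ (Multiplicative.ofAdd (H - T i)))
          (v i))) = Z at h3 ⊢
        have h6 : X = Z * (Y * X⁻¹ * Z) * Z⁻¹ * X := by rw [h3]; group
        have h7 : Z * Y = Z * (Y * X⁻¹ * Z) * Z⁻¹ * X := by group
        rw [h7, ← h6]
      · by_cases h' : dn (w, H)
        · obtain ⟨i, hi, hH⟩ := h'
          simp only at hi hH
          subst hi
          rw [hWdn i H hH]
          have h3 := hrel i (Multiplicative.ofAdd (H - B i))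
          rw [act2] at h3
          have h4 : B i + (Multiplicative.ofAdd (H - B i)).toAdd = H := by
            rw [toAdd_ofAdd]; ring
          rw [h4] at h3
          simp only [map_mul, map_inv] at h3 ⊢
          generalize PresentedGroup.mk (Set.range r) (bk v₀ (of (β i, H))) = X at h3 ⊢
          generalize PresentedGroup.mk (Set.range r) (bk v₀
            ((act v₀ (Multiplicative.ofAdd (H - B i))) (u' i))) = Y at h3 ⊢
          generalize PresentedGroup.mk (Set.range r) (bk v₀
            ((act v₀ (Multiplicative.ofAdd (H - B i))) (v' i))) = Z at h3 ⊢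
          have h6 : X = Y⁻¹ * (Y * X * Z) * Z⁻¹ := by group
          rw [h6, h3]
          group
        · show PresentedGroup.mk (Set.range r) (bk v₀ (if h : up (w, H) then _ else
            if h : dn (w, H) then _ else of (w, H))) = _
          rw [dif_neg h, dif_neg h']
    have hp : ∀ p, PresentedGroup.mk (Set.range r) (bk v₀ (Φ (of p))) =
        PresentedGroup.mk (Set.range r) (bk v₀ (of p)) := by
      intro p
      induction p using wf.induction with
      | _ p ih =>
        by_cases hpb : up p ∨ dn p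
        · rw [hrec p hpb, ← hW p]
          have h := hWlow p hpb
          generalize W p = y at h
          induction h using Subgroup.closure_induction with
          | mem x hx =>
            obtain ⟨q, hq, rfl⟩ := hx
            exact ih q hq
          | one => rw [map_one]
          | mul x y _ _ h1 h2 => rw [map_mul, map_mul, map_mul, h1, h2, map_mul, map_mul]
          | inv x _ h1 => rw [map_inv, map_inv, map_inv, h1, map_inv, map_inv]
        · rw [hbas p hpb]
    intro y
    have h3 : ((PresentedGroup.mk (Set.range r)).comp (bk v₀)).comp Φ =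
        (PresentedGroup.mk (Set.range r)).comp (bk v₀) := by
      apply FreeGroup.ext_hom
      intro p
      exact hp p
    exact DFunLike.congr_fun h3 y
  · intro p
    induction p using wf.induction with
    | _ p ih =>
      by_cases hpb : up p ∨ dn p
      · rw [hrec p hpb]
        have h := hWlow p hpb
        generalize W p = y at h
        induction h using Subgroup.closure_induction with
        | mem x hx =>
          obtain ⟨q, hq, rfl⟩ := hx
          exact ih q hq
        | one => rw [map_one]; exact Subgroup.one_mem _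
        | mul x y _ _ h1 h2 => rw [map_mul]; exact Subgroup.mul_mem _ h1 h2
        | inv x _ h1 => rw [map_inv]; exact Subgroup.inv_mem _ h1
      · rw [hbas p hpb]
        refine Subgroup.subset_closure ⟨p, fun i hi => ?_, rfl⟩
        push Not at hpb
        constructor
        · by_contra h0
          exact hpb.2 ⟨i, hi, by omega⟩
        · by_contra h0
          exact hpb.1 ⟨i, hi, by omega⟩

end

theorem t_FREE : S_FREE := by
  intro V R _ β r v₀ hβ htop
  classical
  have hne : ∀ i, β i ≠ v₀ := fun i => (htop i).1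
  have hinj : Function.Injective (bk v₀) := by
    intro x y hxy
    have h1 := congrArg (RW v₀) hxy
    rw [RW_bk, RW_bk] at h1
    exact SemidirectProduct.inl_injective h1
  have hdat : ∀ i, ∃ (B T : ℤ) (ζ u v u' v' : NP v₀), B < T ∧ u ∈ midP v₀ B (T - 1) ∧
      v ∈ midP v₀ B (T - 1) ∧ u' ∈ midP v₀ (B + 1) T ∧ v' ∈ midP v₀ (B + 1) T ∧
      ζ = u * (of ((⟨β i, hne i⟩ : {v : V // v ≠ v₀}), T))⁻¹ * v ∧
      ζ = u' * of ((⟨β i, hne i⟩ : {v : V // v ≠ v₀}), B) * v' ∧ bk v₀ ζ = r i := by
    intro i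
    obtain ⟨-, B, T, ζ, hBT, hy, ⟨u, hu, v, hv, h1⟩, ⟨u', hu', v', hv', h2⟩⟩ := htop i
    obtain ⟨a, ha, ea⟩ := mid_lift v₀ hu
    obtain ⟨b, hb, eb⟩ := mid_lift v₀ hv
    obtain ⟨a', ha', ea'⟩ := mid_lift v₀ hu'
    obtain ⟨b', hb', eb'⟩ := mid_lift v₀ hv'
    have hof : ∀ h : ℤ, bk v₀ (of ((⟨β i, hne i⟩ : {v : V // v ≠ v₀}), h)) =
        back v₀ (of (β i, h)) := by
      intro h
      rw [bk_of, back, FreeGroup.lift_apply_of]
    have e1 : bk v₀ (a * (of ((⟨β i, hne i⟩ : {v : V // v ≠ v₀}), T))⁻¹ * b) = r i := by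
      rw [hy, h1, map_mul, map_mul, map_inv, ea, eb, hof, map_mul, map_mul, map_inv]
    have e2 : bk v₀ (a' * of ((⟨β i, hne i⟩ : {v : V // v ≠ v₀}), B) * b') = r i := by
      rw [hy, h2, map_mul, map_mul, ea', eb', hof, map_mul, map_mul]
    exact ⟨B, T, _, a, b, a', b', hBT, ha, hb, ha', hb', rfl, hinj (e1.trans e2.symm), e1⟩
  choose B T ζ u v u' v' hBT hu hv hu' hv' h1 h2 hr using hdat
  have D : Dat2 v₀ (fun i => (⟨β i, hne i⟩ : {v : V // v ≠ v₀})) r B T ζ u v u' v' :=
    ⟨hBT, hu, hv, hu', hv', h1, h2, hr⟩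
  have hβ' : Function.Injective (fun i => (⟨β i, hne i⟩ : {v : V // v ≠ v₀})) := fun i j h =>
    hβ (congrArg Subtype.val h)
  obtain ⟨Φ, hΦ1, hΦ2, hΦ3⟩ := exists_retr D hβ'
  -- the exponent sum of `v₀`
  let ρ : PresentedGroup (Set.range r) →* Multiplicative ℤ :=
    PresentedGroup.toGroup (f := fun v => (RW v₀ (of v)).right) (by
      rintro _ ⟨i, rfl⟩
      have h1 : FreeGroup.lift (fun v => (RW v₀ (of v)).right) =
          (SemidirectProduct.rightHom).comp (RW v₀) := by
        apply FreeGroup.ext_hom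
        intro v
        rw [FreeGroup.lift_apply_of]
        rfl
      rw [h1]
      change (RW v₀ (r i)).right = 1
      rw [← hr i, RW_bk]
      rfl)
  have hρ : ∀ w, ρ (PresentedGroup.mk (Set.range r) w) = (RW v₀ w).right := by
    intro w
    have h1 : ρ.comp (PresentedGroup.mk (Set.range r)) =
        (SemidirectProduct.rightHom).comp (RW v₀) := by
      apply FreeGroup.ext_hom
      intro v
      change ρ (PresentedGroup.of v) = _
      rw [PresentedGroup.toGroup.of]
      rfl
    exact DFunLike.congr_fun h1 w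
  let Ξ : NP v₀ →* ρ.ker := ((PresentedGroup.mk (Set.range r)).comp (bk v₀)).codRestrict ρ.ker
    fun y => MonoidHom.mem_ker.2 (by
      show ρ (PresentedGroup.mk (Set.range r) (bk v₀ y)) = 1
      rw [hρ, RW_bk]
      rfl)
  have hΞ : ∀ y, (Ξ y : PresentedGroup (Set.range r)) = PresentedGroup.mk (Set.range r) (bk v₀ y) :=
    fun y => rfl
  have hΞs : Function.Surjective Ξ := by
    rintro ⟨g, hg⟩
    obtain ⟨w, hw⟩ := PresentedGroup.mk_surjective (Set.range r) g
    refine ⟨(RW v₀ w).left, Subtype.ext ?_⟩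
    rw [hΞ, word_eq, hw]
    rw [← hρ, hw]
    exact MonoidHom.mem_ker.1 hg
  have hker : Ξ.ker = Φ.ker := by
    ext y
    rw [MonoidHom.mem_ker, MonoidHom.mem_ker]
    constructor
    · intro h
      have h3 : PresentedGroup.mk (Set.range r) (bk v₀ y) = 1 := congrArg Subtype.val h
      obtain ⟨y', hy', hk⟩ := cells2 hr _ (PresentedGroup.mk_eq_one_iff.1 h3)
      rw [RW_bk] at hy'
      rw [SemidirectProduct.inl_injective hy']
      exact hk Φ hΦ1
    · intro h
      apply Subtype.ext
      rw [hΞ, ← hΦ2, h, map_one, map_one]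
      rfl
  have hfree : IsFreeGroup ρ.ker := by
    have h3 : IsFreeGroup Φ.range := subgroupIsFreeOfIsFree Φ.range
    exact IsFreeGroup.ofMulEquiv
      ((QuotientGroup.quotientKerEquivRange Φ).symm.trans
        ((QuotientGroup.quotientMulEquivOfEq hker.symm).trans
          (QuotientGroup.quotientKerEquivOfSurjective Ξ hΞs)))
  refine ⟨ρ, ?_, hfree, ?_⟩
  · intro z
    refine ⟨(PresentedGroup.of v₀) ^ z.toAdd, ?_⟩
    rw [map_zpow]
    have h3 : ρ (PresentedGroup.of v₀) = Multiplicative.ofAdd 1 := by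
      have := hρ (of v₀)
      rw [RW_v0] at this
      exact this
    rw [h3, ← ofAdd_zsmul, smul_eq_mul, mul_one]
    rfl
  · intro hall
    let bas : Set ({v : V // v ≠ v₀} × ℤ) := {q | ∀ i,
      (⟨β i, hne i⟩ : {v : V // v ≠ v₀}) = q.1 → 0 ≤ q.2 ∧ q.2 < T i - B i}
    have hfin : bas.Finite := by
      have hRf : Finite R := Finite.of_injective β hβ
      have h3 : bas ⊆ ⋃ i : R, (fun h : ℤ => ((⟨β i, hne i⟩ : {v : V // v ≠ v₀}), h)) ''
          Set.Icc 0 (T i - B i) := by
        rintro ⟨w, h⟩ hq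
        obtain ⟨i, hi⟩ := hall w.1 w.2
        have hi' : (⟨β i, hne i⟩ : {v : V // v ≠ v₀}) = w := Subtype.ext hi
        have h4 := hq i hi'
        exact Set.mem_iUnion.2 ⟨i, h, ⟨h4.1, h4.2.le⟩, by rw [hi']⟩
      exact (Set.finite_iUnion fun i => (Set.finite_Icc _ _).image _).subset h3
    let g : ({v : V // v ≠ v₀} × ℤ) → PresentedGroup (Set.range r) := fun q =>
      PresentedGroup.mk (Set.range r) (bk v₀ (of q))
    refine ⟨(hfin.image g).toFinset, ?_⟩
    rw [Set.Finite.coe_toFinset]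
    apply le_antisymm
    · rw [Subgroup.closure_le]
      rintro _ ⟨q, -, rfl⟩
      exact (Ξ (of q)).2
    · have hy : ∀ y : NP v₀, PresentedGroup.mk (Set.range r) (bk v₀ y) ∈
          Subgroup.closure (g '' bas) := by
        intro y
        induction y using FreeGroup.induction_on with
        | C1 => rw [map_one, map_one]; exact Subgroup.one_mem _
        | of p =>
          rw [← hΦ2]
          have h3 := hΦ3 p
          generalize Φ (of p) = z at h3
          induction h3 using Subgroup.closure_induction with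
          | mem x hx =>
            obtain ⟨q, hq, rfl⟩ := hx
            exact Subgroup.subset_closure ⟨q, hq, rfl⟩
          | one => rw [map_one, map_one]; exact Subgroup.one_mem _
          | mul x y _ _ h1 h2 => rw [map_mul, map_mul]; exact Subgroup.mul_mem _ h1 h2
          | inv x _ h1 => rw [map_inv, map_inv]; exact Subgroup.inv_mem _ h1
        | inv_of p ih => rw [map_inv, map_inv]; exact Subgroup.inv_mem _ ih
        | mul x y h1 h2 => rw [map_mul, map_mul]; exact Subgroup.mul_mem _ h1 h2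
      intro x hx
      obtain ⟨y, hy'⟩ := hΞs ⟨x, hx⟩
      have h3 : PresentedGroup.mk (Set.range r) (bk v₀ y) = x := congrArg Subtype.val hy'
      exact h3 ▸ hy y

end Run7.h178.SL
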