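import Pool.Agent.Run7.h178.SL.Main2
import Pool.Agent.Run7.h178.SL.FREE
import Pool.Agent.Run7.h216.SL.GAUSS
import Pool.Agent.Run7.h959.SL.SLIDE

/-! Contractible 2-complexes after slides of the 2-cells: the theorems without hypotheses. -/

set_option autoImplicit false

open Pool.Agent.R655.LI Function

namespace Run7.h178.SL

theorem contractible2 (L : Cx) [DecidableEq L.R] (hL : L.Contractible) (hfin : L.IsFin) :
    ∃ r' : L.R → FreeGroup L.V, QEq L.r r' ∧ (Cx.mk L.V L.R r').Contractible ∧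
      (∀ e : L.R, FgFreeByInt ((Cx.mk L.V L.R r').del e).Pi) ∧
      ∀ (K : Cx) (_ : Sub K (Cx.mk L.V L.R r')), FreeByInt K.Pi ∧ LocInd K.Pi ∧ Asph K :=
  main2 Run7.h959.SL.t_SLIDE Run7.h216.SL.t_GAUSS t_FREE L hL hfin

theorem acyclic3 (V R : Type) [Fintype V] [Fintype R]
    [DecidableEq R] (r : R → FreeGroup V) (hc : Fintype.card R = Fintype.card V)
    (hr : Submodule.span ℤ (Set.range fun i => (expSum V (r i)).toAdd) = ⊤) :
    ∃ r' : R → FreeGroup V, QEq r r' ∧
      Subgroup.normalClosure (Set.range r') = Subgroup.normalClosure (Set.range r) ∧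
      (∀ e : R, FgFreeByInt ((Cx.mk V R r').del e).Pi) ∧
      ∀ (K : Cx) (s : Sub K (Cx.mk V R r')), ¬ Surjective s.c → FreeByInt K.Pi ∧ LocInd K.Pi :=
  acyclic2 Run7.h959.SL.t_SLIDE Run7.h216.SL.t_GAUSS t_FREE V R r hc hr

end Run7.h178.SL
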