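import Pool.Agent.Run7.h178.SL.Acyc

/-! Torsion and perfect groups after slides. -/

set_option autoImplicit false

open Pool.Agent.R655.LI Function

namespace Run7.h178.SL

/-- a 2-complex with one vertex, finitely many cells, as many 2-cells as 1-cells, and `H₁ = 0` (the
exponent sum vectors of the attaching words generate `ℤ ^ V`); then `H₂ = 0`, too -/
def Acyclic (L : Cx) : Prop :=
  L.IsFin ∧ Nat.card L.R = Nat.card L.V ∧
    Submodule.span ℤ (Set.range fun i => (expSum L.V (L.r i)).toAdd) = ⊤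

theorem acyclic5 (L : Cx) [DecidableEq L.R] (hL : Acyclic L) :
    ∃ r' : L.R → FreeGroup L.V, QEq L.r r' ∧
      Subgroup.normalClosure (Set.range r') = Subgroup.normalClosure (Set.range L.r) ∧
      Bijective (Cx.mk L.V L.R r').bdry ∧
      (∀ e : L.R, FgFreeByInt ((Cx.mk L.V L.R r').del e).Pi) ∧
      ∀ (K : Cx) (s : Sub K (Cx.mk L.V L.R r')), ¬ Surjective s.c →
        FreeByInt K.Pi ∧ LocInd K.Pi ∧ Asph K := by
  obtain ⟨⟨hV, hR⟩, hc, hr⟩ := hL
  have : Fintype L.V := Fintype.ofFinite _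
  have : Fintype L.R := Fintype.ofFinite _
  rw [Nat.card_eq_fintype_card, Nat.card_eq_fintype_card] at hc
  exact acyclic4 L.V L.R L.r hc hr

theorem torsFree_of_inj {A B : Type} [Group A] [Group B] (f : A →* B) (hf : Injective f)
    (h : TorsFree B) : TorsFree A := by
  intro x n hn hx
  apply hf
  rw [map_one]
  exact h (f x) n hn (by rw [← map_pow, hx, map_one])

/-- subcomplexes with all 2-cells -/
theorem torsFree_whole {V R : Type} {r r' : R → FreeGroup V}
    (h : Subgroup.normalClosure (Set.range r') = Subgroup.normalClosure (Set.range r))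
    (ht : TorsFree (Cx.mk V R r).Pi) (K : Cx) (s : Sub K (Cx.mk V R r')) (hs : Surjective s.c) :
    TorsFree K.Pi := by
  obtain ⟨f, hf⟩ := embeds s
  apply torsFree_of_inj f hf
  have h2 : Set.range (fun k : K.R => (Cx.mk V R r').r (s.c k)) = Set.range r' := by
    ext y
    constructor
    · rintro ⟨k, rfl⟩
      exact ⟨s.c k, rfl⟩
    · rintro ⟨i, rfl⟩
      obtain ⟨k, rfl⟩ := hs i
      exact ⟨k, rfl⟩
  intro x n hn hx
  obtain ⟨w, rfl⟩ := PresentedGroup.mk_surjective _ x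
  rw [← map_pow, PresentedGroup.mk_eq_one_iff] at hx
  rw [PresentedGroup.mk_eq_one_iff]
  rw [h2, h] at hx ⊢
  have h3 := ht (PresentedGroup.mk (Set.range r) w) n hn (by
    rw [← map_pow]
    exact PresentedGroup.mk_eq_one_iff.2 hx)
  exact PresentedGroup.mk_eq_one_iff.1 h3

theorem torsion (L : Cx) [DecidableEq L.R] (hL : Acyclic L) (ht : TorsFree L.Pi) :
    ∃ r' : L.R → FreeGroup L.V, QEq L.r r' ∧
      Subgroup.normalClosure (Set.range r') = Subgroup.normalClosure (Set.range L.r) ∧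
      ∀ (K : Cx) (s : Sub K (Cx.mk L.V L.R r')), TorsFree K.Pi ∧ (¬ Surjective s.c →
        FreeByInt K.Pi ∧ Asph K) := by
  obtain ⟨r', h1, h2, h3, h4, h5⟩ := acyclic5 L hL
  refine ⟨r', h1, h2, fun K s => ⟨?_, fun hs => ⟨(h5 K s hs).1, (h5 K s hs).2.2⟩⟩⟩
  by_cases hs : Surjective s.c
  · exact torsFree_whole h2 ht K s hs
  · exact torsFree_of_locInd (h5 K s hs).2.1

theorem perfect1 (L : Cx) [DecidableEq L.R] (hL : L.Contractible) (hfin : L.IsFin) :
    ∃ r' : L.R → FreeGroup L.V, QEq L.r r' ∧ (Cx.mk L.V L.R r').Contractible ∧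
      ∀ (K : Cx) (_ : Sub K (Cx.mk L.V L.R r')), commutator K.Pi = ⊤ → K.Contractible := by
  obtain ⟨r', h1, h2, h3, h4⟩ := contractible2 L hL hfin
  have hV : Finite L.V := hfin.1
  have : Finite (Cx.mk L.V L.R r').V := hV
  exact ⟨r', h1, h2, fun K s hp => contractible_of_perfect s h2.bdry_inj (h4 K s).2.1 hp⟩

theorem perfect2 (L : Cx) [DecidableEq L.R] (hL : Acyclic L) :
    ∃ r' : L.R → FreeGroup L.V, QEq L.r r' ∧
      Subgroup.normalClosure (Set.range r') = Subgroup.normalClosure (Set.range L.r) ∧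
      ∀ (K : Cx) (s : Sub K (Cx.mk L.V L.R r')), ¬ Surjective s.c → commutator K.Pi = ⊤ →
        K.Contractible := by
  obtain ⟨r', h1, h2, h3, h4, h5⟩ := acyclic5 L hL
  have hV : Finite L.V := hL.1.1
  have : Finite (Cx.mk L.V L.R r').V := hV
  exact ⟨r', h1, h2, fun K s hs hp => contractible_of_perfect s h3.1 (h5 K s hs).2.1 hp⟩

theorem not_surj_del (L : Cx) (e : L.R) : ¬ Surjective (delSub L e).c := by
  intro h
  obtain ⟨k, hk⟩ := h e
  exact k.2 hk

theorem dels (L : Cx) [DecidableEq L.R] (hL : Acyclic L) :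
    ∃ r' : L.R → FreeGroup L.V, QEq L.r r' ∧
      Subgroup.normalClosure (Set.range r') = Subgroup.normalClosure (Set.range L.r) ∧
      ∀ e : L.R, Asph ((Cx.mk L.V L.R r').del e) ∧
        FgFreeByInt ((Cx.mk L.V L.R r').del e).Pi := by
  obtain ⟨r', h1, h2, h3, h4, h5⟩ := acyclic5 L hL
  exact ⟨r', h1, h2, fun e => ⟨(h5 _ (delSub (Cx.mk L.V L.R r') e)
    (not_surj_del (Cx.mk L.V L.R r') e)).2.2, h4 e⟩⟩

end Run7.h178.SL
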