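import Pool.Agent.Run7.h178.SL.TOP

/-! Assembly of the project SL from the pieces SLIDE, GAUSS, TOP, LI of the interface
`Run7/h178/SL/Stm`. -/

set_option autoImplicit false

open Pool.Agent.R655.LI Function

namespace Run7.h178.SL

theorem all_tops (hSl : S_SLIDE) {V R : Type} [Fintype V] [Fintype R] [DecidableEq R] (β : R ≃ V)
    (r : R → FreeGroup V) (hr : ∀ i, (expSum V (r i)).toAdd = Finsupp.single (β i) 1)
    (s : Finset R) : ∃ r' : R → FreeGroup V, QEq r r' ∧
      (∀ i, (expSum V (r' i)).toAdd = Finsupp.single (β i) 1) ∧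
      ∀ i ∈ s, ∀ j, j ≠ i → Top (β j) (β i) (r' i) := by
  induction s using Finset.induction_on with
  | empty => exact ⟨r, Relation.ReflTransGen.refl, hr, fun i hi => absurd hi (Finset.notMem_empty i)⟩
  | insert i s _ ih =>
    obtain ⟨r', h1, h2, h3⟩ := ih
    obtain ⟨n, hn, h0, ht⟩ := t_TOP V R β r' h2 i
    refine ⟨Function.update r' i (r' i * n), h1.trans ((hSl R (FreeGroup V)).1 r' i n hn), ?_, ?_⟩
    · intro k
      by_cases hk : k = i
      · subst hk
        rw [Function.update_self, map_mul, toAdd_mul, h2, h0, add_zero]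
      · rw [Function.update_of_ne hk, h2]
    · intro k hk j hj
      by_cases hki : k = i
      · subst hki
        rw [Function.update_self]
        exact ht j hj
      · rw [Function.update_of_ne hki]
        exact h3 k ((Finset.mem_insert.1 hk).resolve_left hki) j hj

/-- The words version: relators whose exponent sum vectors generate `ℤ ^ V`, `|R| = |V|`. -/
theorem words (hSl : S_SLIDE) (hGa : S_GAUSS) {V R : Type} [Fintype V] [Fintype R] [DecidableEq R]
    (β : R ≃ V) (r : R → FreeGroup V)
    (hr : Submodule.span ℤ (Set.range fun i => (expSum V (r i)).toAdd) = ⊤) :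
    ∃ r' : R → FreeGroup V, QEq r r' ∧
      (∀ i, (expSum V (r' i)).toAdd = Finsupp.single (β i) 1) ∧
      ∀ i j, j ≠ i → Top (β j) (β i) (r' i) := by
  obtain ⟨r₀, h0, h1⟩ := hGa V R β r hr
  obtain ⟨r', h2, h3, h4⟩ := all_tops hSl β r₀ h1 Finset.univ
  exact ⟨r', h0.trans h2, h3, fun i => h4 i (Finset.mem_univ i)⟩

theorem locInd_of_inj {G A : Type} [Group G] [Group A] (f : G →* A) (hf : Injective f)
    (h : LocInd A) : LocInd G := by
  classical
  intro H hH hne
  have h1 : (H.map f).FG := by
    obtain ⟨S, hS⟩ := hH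
    exact ⟨S.image f, by rw [Finset.coe_image, ← MonoidHom.map_closure, hS]⟩
  have h2 : H.map f ≠ ⊥ := fun h0 => hne ((Subgroup.map_eq_bot_iff_of_injective H hf).1 h0)
  obtain ⟨ψ, hψ⟩ := h _ h1 h2
  exact ⟨ψ.comp (H.equivMapOfInjective f hf).toMonoidHom,
    hψ.comp (H.equivMapOfInjective f hf).surjective⟩

/-- the fundamental group of a subcomplex embeds in the group with all generators and the same
relators -/
theorem embeds {K L : Cx} (s : Sub K L) :
    ∃ f : K.Pi →* PresentedGroup (Set.range fun k : K.R => L.r (s.c k)), Injective f := by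
  classical
  let P := PresentedGroup (Set.range fun k : K.R => L.r (s.c k))
  let f : K.Pi →* P := PresentedGroup.toGroup (f := fun v => (PresentedGroup.of (s.v v) : P)) (by
    rintro _ ⟨j, rfl⟩
    have h : FreeGroup.lift (fun v => (PresentedGroup.of (s.v v) : P)) =
        (PresentedGroup.mk _).comp (FreeGroup.map s.v) := by
      ext v
      simp [PresentedGroup.of]
    rw [h, MonoidHom.comp_apply, s.comm]
    exact PresentedGroup.one_of_mem ⟨j, rfl⟩)
  let q : L.V → K.Pi := fun u => if h : ∃ v, s.v v = u then PresentedGroup.of h.choose else 1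
  have hq : ∀ v, q (s.v v) = PresentedGroup.of v := by
    intro v
    have h : ∃ v', s.v v' = s.v v := ⟨v, rfl⟩
    show (if h : ∃ v', s.v v' = s.v v then PresentedGroup.of h.choose else 1) = _
    rw [dif_pos h, s.v.injective h.choose_spec]
  let g : P →* K.Pi := PresentedGroup.toGroup (f := q) (by
    rintro _ ⟨j, rfl⟩
    show FreeGroup.lift q (L.r (s.c j)) = 1
    rw [← s.comm]
    have h : (FreeGroup.lift q).comp (FreeGroup.map s.v) = PresentedGroup.mk (Set.range K.r) := by
      ext v
      rw [MonoidHom.comp_apply, FreeGroup.map.of, FreeGroup.lift_apply_of, hq]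
      rfl
    rw [← MonoidHom.comp_apply, h]
    exact PresentedGroup.one_of_mem ⟨j, rfl⟩)
  have hgf : g.comp f = MonoidHom.id K.Pi := by
    apply PresentedGroup.ext
    intro v
    rw [MonoidHom.comp_apply]
    show g (f (PresentedGroup.of v)) = PresentedGroup.of v
    have e1 : f (PresentedGroup.of v) = PresentedGroup.of (s.v v) := PresentedGroup.toGroup.of _
    rw [e1]
    have e2 : g (PresentedGroup.of (s.v v)) = q (s.v v) := PresentedGroup.toGroup.of _
    rw [e2, hq]
  refine ⟨f, fun x y hxy => ?_⟩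
  have hx := DFunLike.congr_fun hgf x
  have hy := DFunLike.congr_fun hgf y
  rw [MonoidHom.comp_apply] at hx hy
  rw [MonoidHom.id_apply] at hx hy
  rw [← hx, ← hy, hxy]

/-- the conclusion for the subcomplexes -/
theorem subs (hLI : S_LI) (V R : Type) [Fintype V] (β : R ≃ V) (r : R → FreeGroup V)
    (h1 : ∀ x : (Cx.mk V R r).Pi, x = 1) (ht : ∀ i j, j ≠ i → Top (β j) (β i) (r i)) (K : Cx)
    (s : Sub K (Cx.mk V R r)) : LocInd K.Pi := by
  obtain ⟨f, hf⟩ := embeds s
  apply locInd_of_inj f hf
  by_cases hc : Surjective s.c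
  · intro H _ hne
    exfalso
    apply hne
    rw [Subgroup.eq_bot_iff_forall]
    intro x _
    obtain ⟨w, rfl⟩ := PresentedGroup.mk_surjective _ x
    rw [PresentedGroup.mk_eq_one_iff]
    have h2 : Set.range (fun k : K.R => (Cx.mk V R r).r (s.c k)) = Set.range r := by
      ext y
      constructor
      · rintro ⟨k, rfl⟩
        exact ⟨s.c k, rfl⟩
      · rintro ⟨i, rfl⟩
        obtain ⟨k, rfl⟩ := hc i
        exact ⟨k, rfl⟩
    rw [h2]
    exact PresentedGroup.mk_eq_one_iff.1 (h1 (PresentedGroup.mk _ w))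
  · obtain ⟨j, hj⟩ : ∃ j, ∀ k, s.c k ≠ j := by
      by_contra h
      push Not at h
      exact hc h
    exact hLI V K.R (fun k => β (s.c k)) (fun k => r (s.c k)) (β j)
      (fun a b h => s.c.injective (β.injective h)) fun k => ht (s.c k) j fun h => hj k h.symm

/-- the version for acyclic complexes: the subcomplexes without at least one 2-cell -/
theorem acyclic (hSl : S_SLIDE) (hGa : S_GAUSS) (hLI : S_LI) (V R : Type) [Fintype V] [Fintype R]
    [DecidableEq R] (r : R → FreeGroup V) (hc : Fintype.card R = Fintype.card V)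
    (hr : Submodule.span ℤ (Set.range fun i => (expSum V (r i)).toAdd) = ⊤) :
    ∃ r' : R → FreeGroup V, QEq r r' ∧
      Subgroup.normalClosure (Set.range r') = Subgroup.normalClosure (Set.range r) ∧
      ∀ (K : Cx) (s : Sub K (Cx.mk V R r')), ¬ Surjective s.c → LocInd K.Pi := by
  obtain ⟨r', h1, h2, h3⟩ := words hSl hGa (Fintype.equivOfCardEq hc) r hr
  refine ⟨r', h1, (hSl R (FreeGroup V)).2.1 r r' h1, fun K s hs => ?_⟩
  obtain ⟨f, hf⟩ := embeds s
  apply locInd_of_inj f hf
  obtain ⟨j, hj⟩ : ∃ j, ∀ k, s.c k ≠ j := by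
    by_contra h
    push Not at h
    exact hs h
  exact hLI V K.R (fun k => Fintype.equivOfCardEq hc (s.c k)) (fun k => r' (s.c k))
    (Fintype.equivOfCardEq hc j)
    (fun a b h => s.c.injective ((Fintype.equivOfCardEq hc).injective h))
    fun k => h3 (s.c k) j fun h => hj k h.symm

/-- asphericity from local indicability -/
theorem asph {K L : Cx} (s : Sub K L) (hL : L.Contractible) (h : LocInd K.Pi) : Asph K := by
  refine asph_of_PInd s hL 0 (Or.inl rfl) ?_
  intro H hH hne
  obtain ⟨f, hf⟩ := h H hH hne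
  refine ⟨f, fun h0 => ?_⟩
  obtain ⟨x, hx⟩ := hf (Multiplicative.ofAdd (1 : ℤ))
  have hx' : f x = 1 := DFunLike.congr_fun h0 x
  rw [hx'] at hx
  exact absurd (congrArg Multiplicative.toAdd hx) (by decide)

/-- **Main theorem** (from the pieces). -/
theorem main (hSl : S_SLIDE) (hGa : S_GAUSS) (hLI : S_LI) (L : Cx) [DecidableEq L.R]
    (hL : L.Contractible) (hfin : L.IsFin) : ∃ r' : L.R → FreeGroup L.V, QEq L.r r' ∧
      (Cx.mk L.V L.R r').Contractible ∧
      ∀ (K : Cx) (_ : Sub K (Cx.mk L.V L.R r')), LocInd K.Pi ∧ Asph K := by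
  classical
  obtain ⟨hV, hR⟩ := hfin
  have : Fintype L.V := Fintype.ofFinite _
  have : Fintype L.R := Fintype.ofFinite _
  have hbij : Bijective L.bdry := ⟨hL.bdry_inj, bdry_surj hL⟩
  have hcard : Fintype.card L.R = Fintype.card L.V := by
    have h := (LinearEquiv.ofBijective L.bdry hbij).finrank_eq
    rwa [Module.finrank_finsupp_self, Module.finrank_finsupp_self] at h
  obtain β : L.R ≃ L.V := Fintype.equivOfCardEq hcard
  have hspan : Submodule.span ℤ (Set.range fun i => (expSum L.V (L.r i)).toAdd) = ⊤ := by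
    rw [← Finsupp.range_linearCombination]
    exact LinearMap.range_eq_top.2 (bdry_surj hL)
  obtain ⟨r', h1, h2, h3⟩ := words hSl hGa β L.r hspan
  have hcl := (hSl L.R (FreeGroup L.V)).2.1 L.r r' h1
  have hpi : ∀ x : (Cx.mk L.V L.R r').Pi, x = 1 := by
    intro x
    obtain ⟨w, rfl⟩ := PresentedGroup.mk_surjective _ x
    rw [PresentedGroup.mk_eq_one_iff]
    show w ∈ Subgroup.normalClosure (Set.range r')
    rw [hcl]
    exact PresentedGroup.mk_eq_one_iff.1 (hL.pi_eq_one (PresentedGroup.mk _ w))
  have hc : (Cx.mk L.V L.R r').Contractible := by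
    refine ⟨hpi, ?_⟩
    rw [injective_iff_map_eq_zero]
    intro c hc0
    have h4 : (Cx.mk L.V L.R r').bdry c = Finsupp.mapDomain β c := by
      show Finsupp.linearCombination ℤ (fun j => (expSum L.V (r' j)).toAdd) c = _
      rw [Finsupp.linearCombination_apply, Finsupp.mapDomain]
      refine Finsupp.sum_congr fun i _ => ?_
      rw [h2, Finsupp.smul_single, smul_eq_mul, mul_one]
    rw [h4] at hc0
    exact Finsupp.mapDomain_injective β.injective (by rw [hc0, Finsupp.mapDomain_zero])
  refine ⟨r', h1, hc, fun K s => ?_⟩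
  have h5 := subs hLI L.V L.R β r' hpi h3 K s
  exact ⟨h5, asph s hc h5⟩

end Run7.h178.SL
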