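import Pool.Agent.Run7.h178.SL.Stm

/-!
# Second interface: free kernels

With a unique letter of maximal height AND a unique letter of minimal height, both of the same generator
`β i`, in every direction `j ≠ i`, the kernel of the exponent sum of `x_j` is a free group, finitely
generated if only the relator `j` is missing. So `π₁(L' - e) = F_m ⋊ ℤ` for all 2-cells `e`.
-/

set_option autoImplicit false

open Pool.Agent.R655.LI

namespace Run7.h178.SL

/-- the letters with heights in `[lo, hi]`, without those of the generator `v₀` -/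
def mid {V : Type} (v₀ : V) (lo hi : ℤ) : Subgroup (NN V) :=
  Subgroup.closure {x | ∃ v h, v ≠ v₀ ∧ lo ≤ h ∧ h ≤ hi ∧ x = FreeGroup.of (v, h)}

/-- the word `y` has, with respect to the direction `v₀`, exactly one letter of maximal height `T` and
exactly one letter of minimal height `B < T`, and both are letters of the generator `v₁ ≠ v₀` -/
def TopBot {V : Type} (v₀ v₁ : V) (y : FreeGroup V) : Prop :=
  v₁ ≠ v₀ ∧ ∃ (B T : ℤ) (ζ : NN V), B < T ∧ y = back v₀ ζ ∧
    (∃ u ∈ mid v₀ B (T - 1), ∃ v ∈ mid v₀ B (T - 1), ζ = u * (FreeGroup.of (v₁, T))⁻¹ * v) ∧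
    (∃ u ∈ mid v₀ (B + 1) T, ∃ v ∈ mid v₀ (B + 1) T, ζ = u * FreeGroup.of (v₁, B) * v)

/-- TOP2 (helper178): as TOP, with `w = ∏_{k ≠ i} x_k ^ M * x_i * x_k ^ (-2 M) * x_i * x_k ^ M`. -/
def S_TOP2 : Prop := ∀ (V R : Type) [Fintype V] [Fintype R] [DecidableEq R] (β : R ≃ V)
  (r : R → FreeGroup V), (∀ i, (expSum V (r i)).toAdd = Finsupp.single (β i) 1) → ∀ i : R,
  ∃ n ∈ others r i, (expSum V n).toAdd = 0 ∧ ∀ j, j ≠ i → TopBot (β j) (β i) (r i * n)

/-- FREE (200 lines). Use `Pool.Agent.Run7.h781.SL.LI` (`NP`, `RW`, `bk`, `act`, `cells`, `word_eq`; `cells` needs only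
`r i = bk (rel i)`, copy it for the new data).
Proof: let `ζ i` be the word of the relator `i` in `NP v₀`, `D i = T i - B i`. There is ONE endomorphism `Φ` of
`NP v₀` which kills ALL the shifted relators `act e (ζ i)` and is the identity modulo the relators:
* for `p = (β i, h)`, `h ≥ D i`, put `e = h - T i` and `Φ (of p) = Φ (act e (v * u))`, `ζ i = u * (of (β i, T i))⁻¹ * v`; the
  letters of `act e (v * u)` have heights in `[h - D i, h - 1] ⊆ [0, h - 1]`;
* for `p = (β i, h)`, `h < 0`, put `e = h - B i` and `Φ (of p) = Φ (act e (v' * u'))⁻¹`, `ζ i = u' * of (β i, B i) * v'`; the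
  letters have heights in `[h + 1, h + D i]`;
* `Φ (of p) = of p` for all other `p` (`v ∉ range β`, or `0 ≤ h < D i`).
This is a well-founded recursion: letters of height `≥ 0` before those of height `< 0`, the former by `h`, the
latter by `-h` (e.g. `WellFounded.fix` for `p ↦ (if 0 ≤ h then (0, h) else (1, -h))` in `ℕ ×ₗ ℕ`, with
`Φ₀ p = FreeGroup.lift (fun q => if q < p then Φ₀ q else 1) (W p)`). A shifted relator `act e (ζ i)` with `B i + e ≥ 0` is
killed by the first rule for `h = T i + e`, one with `B i + e < 0` by the second rule for `h = B i + e`.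
So `Φ` induces an injective homomorphism of the kernel of the exponent sum `f` of `x_{v₀}` (all of whose
elements are `mk (bk y)`) to the free group `NP v₀`, and the kernel is free (Nielsen-Schreier,
`subgroupIsFreeOfIsFree`; an isomorphism with a subgroup of a free group). If `V` is finite and every `v ≠ v₀`
is some `β i`, the letters with `Φ (of p) = of p` are finitely many and their images generate the kernel. -/
def S_FREE : Prop := ∀ (V R : Type) [Finite V] (β : R → V) (r : R → FreeGroup V) (v₀ : V),
  Function.Injective β → (∀ i, TopBot v₀ (β i) (r i)) →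
  ∃ f : PresentedGroup (Set.range r) →* Multiplicative ℤ, Function.Surjective f ∧
    IsFreeGroup f.ker ∧ ((∀ v, v ≠ v₀ → ∃ i, β i = v) → f.ker.FG)

end Run7.h178.SL
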