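import Pool.Agent.Run7.h178.SL.TOP
import Pool.Agent.Run7.h178.SL.Stm2

/-! Piece TOP2 of the interface `Run7/h178/SL/Stm2`. -/

set_option autoImplicit false

open Pool.Agent.R655.LI

namespace Run7.h178.SL

section
variable {V : Type}

theorem mid_mono (v₀ : V) {a b c d : ℤ} (h : c ≤ a) (h' : b ≤ d) : mid v₀ a b ≤ mid v₀ c d := by
  apply Subgroup.closure_mono
  rintro x ⟨v, k, hv, hk, hk', rfl⟩
  exact ⟨v, k, hv, by omega, by omega, rfl⟩

theorem of_mid (v₀ : V) {v : V} (hv : v ≠ v₀) {h a b : ℤ} (ha : a ≤ h) (hb : h ≤ b) :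
    (FreeGroup.of (v, h) : NN V) ∈ mid v₀ a b :=
  Subgroup.subset_closure ⟨v, h, hv, ha, hb, rfl⟩

theorem sh_mid (v₀ : V) (k : ℤ) {lo hi : ℤ} {a : NN V} (ha : a ∈ mid v₀ lo hi) :
    sh k a ∈ mid v₀ (lo + k) (hi + k) := by
  induction ha using Subgroup.closure_induction with
  | mem x hx =>
    obtain ⟨v, h, hv, hh, hh', rfl⟩ := hx
    rw [sh_of]
    exact Subgroup.subset_closure ⟨v, h + k, hv, by omega, by omega, rfl⟩
  | one => rw [map_one]; exact Subgroup.one_mem _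
  | mul x y _ _ h1 h2 => rw [map_mul]; exact Subgroup.mul_mem _ h1 h2
  | inv x _ h1 => rw [map_inv]; exact Subgroup.inv_mem _ h1

theorem ALL_mid (v₀ : V) {a : NN V} (ha : a ∈ ALL v₀) : ∃ T : ℕ, a ∈ mid v₀ (-T) T := by
  induction ha using Subgroup.closure_induction with
  | mem x hx =>
    obtain ⟨v, h, hv, rfl⟩ := hx
    exact ⟨h.natAbs, of_mid v₀ hv (by omega) (by omega)⟩
  | one => exact ⟨0, Subgroup.one_mem _⟩
  | mul x y _ _ h1 h2 =>
    obtain ⟨T1, h1⟩ := h1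
    obtain ⟨T2, h2⟩ := h2
    exact ⟨T1 + T2, Subgroup.mul_mem _ (mid_mono v₀ (by push_cast; omega) (by push_cast; omega) h1)
      (mid_mono v₀ (by push_cast; omega) (by push_cast; omega) h2)⟩
  | inv x _ h1 =>
    obtain ⟨T1, h1⟩ := h1
    exact ⟨T1, Subgroup.inv_mem _ h1⟩

end

section
variable {V R : Type} (β : R ≃ V)

/-- the peaks and valleys -/
def pk2 (i : R) (M : ℕ) (k : R) : FreeGroup V :=
  FreeGroup.of (β k) ^ (M : ℤ) * FreeGroup.of (β i) * (FreeGroup.of (β k) ^ (M : ℤ))⁻¹ *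
    (FreeGroup.of (β k) ^ (-(M : ℤ)) * FreeGroup.of (β i) * (FreeGroup.of (β k) ^ (-(M : ℤ)))⁻¹)

theorem pk2_top (i j : R) (M : ℕ) : pk2 β i M j =
    back (β j) (FreeGroup.of (β i, (M : ℤ)) * FreeGroup.of (β i, -(M : ℤ))) := by
  rw [map_mul, back_of, back_of]
  rfl

theorem pk2_low {i j k : R} (hi : i ≠ j) (hk : k ≠ j) (M : ℕ) :
    ∃ a ∈ mid (β j) 0 0, pk2 β i M k = back (β j) a := by
  have e1 : β i ≠ β j := fun h => hi (β.injective h)
  have e2 : β k ≠ β j := fun h => hk (β.injective h)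
  have g1 : (FreeGroup.of (β i, 0) : NN V) ∈ mid (β j) 0 0 := of_mid _ e1 le_rfl le_rfl
  have g2 : (FreeGroup.of (β k, 0) : NN V) ∈ mid (β j) 0 0 := of_mid _ e2 le_rfl le_rfl
  refine ⟨FreeGroup.of (β k, 0) ^ (M : ℤ) * FreeGroup.of (β i, 0) *
    (FreeGroup.of (β k, 0) ^ (M : ℤ))⁻¹ * (FreeGroup.of (β k, 0) ^ (-(M : ℤ)) *
    FreeGroup.of (β i, 0) * (FreeGroup.of (β k, 0) ^ (-(M : ℤ)))⁻¹), ?_, ?_⟩
  · exact Subgroup.mul_mem _ (Subgroup.mul_mem _ (Subgroup.mul_mem _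
      (Subgroup.zpow_mem _ g2 _) g1) (Subgroup.inv_mem _ (Subgroup.zpow_mem _ g2 _)))
      (Subgroup.mul_mem _ (Subgroup.mul_mem _
      (Subgroup.zpow_mem _ g2 _) g1) (Subgroup.inv_mem _ (Subgroup.zpow_mem _ g2 _)))
  · have h1 : back (β j) (FreeGroup.of (β k, 0)) = FreeGroup.of (β k) := by
      rw [back_of]
      simp
    have h2 : back (β j) (FreeGroup.of (β i, 0)) = FreeGroup.of (β i) := by
      rw [back_of]
      simp
    simp only [map_mul, map_inv, map_zpow, h1, h2]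
    rfl

theorem w2_low {i j : R} (hi : i ≠ j) (M : ℕ) (l : List R) (hl : ∀ k ∈ l, k ≠ j) :
    ∃ a ∈ mid (β j) 0 0, (l.map (pk2 β i M)).prod = back (β j) a := by
  induction l with
  | nil => exact ⟨1, Subgroup.one_mem _, by rw [map_one]; rfl⟩
  | cons k l ih =>
    obtain ⟨a, ha, h⟩ := ih fun x hx => hl x (List.mem_cons_of_mem _ hx)
    obtain ⟨b, hb, h'⟩ := pk2_low β hi (hl k List.mem_cons_self) M
    exact ⟨b * a, Subgroup.mul_mem _ hb ha, by rw [List.map_cons, List.prod_cons, h, h', map_mul]⟩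

theorem w2_top {i j : R} (hi : i ≠ j) (M : ℕ) (l : List R) (hn : l.Nodup) (hj : j ∈ l) :
    ∃ a ∈ mid (β j) 0 0, ∃ b ∈ mid (β j) 0 0, (l.map (pk2 β i M)).prod =
      back (β j) (a * FreeGroup.of (β i, (M : ℤ)) * FreeGroup.of (β i, -(M : ℤ)) * b) := by
  induction l with
  | nil => exact absurd hj List.not_mem_nil
  | cons k l ih =>
    obtain ⟨hk, hn'⟩ := List.nodup_cons.1 hn
    by_cases hkj : k = j
    · subst hkj
      obtain ⟨b, hb, h⟩ := w2_low β hi M l fun x hx hxk => hk (hxk ▸ hx)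
      refine ⟨1, Subgroup.one_mem _, b, hb, ?_⟩
      rw [List.map_cons, List.prod_cons, h, pk2_top, one_mul, ← map_mul]
    · have hj' : j ∈ l := by
        rcases List.mem_cons.1 hj with h | h
        · exact absurd h.symm hkj
        · exact h
      obtain ⟨a, ha, b, hb, h⟩ := ih hn' hj'
      obtain ⟨c, hc, h'⟩ := pk2_low β hi hkj M
      refine ⟨c * a, Subgroup.mul_mem _ hc ha, b, hb, ?_⟩
      rw [List.map_cons, List.prod_cons, h, h', ← map_mul]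
      congr 1
      group

end

/-- one direction -/
theorem one_dir2 {V R : Type} (β : R ≃ V) {i j : R} (hij : i ≠ j)
    (M : ℕ) (hM : 1 ≤ M) (y w n : FreeGroup V) (a b ρ ν : NN V)
    (ha : a ∈ mid (β j) 0 0) (hb : b ∈ mid (β j) 0 0)
    (hρ : ρ ∈ mid (β j) (-(M : ℤ) + 1) M) (hν : ν ∈ mid (β j) (-(M : ℤ) + 1) M)
    (hw : w = back (β j) (a * FreeGroup.of (β i, (M : ℤ)) * FreeGroup.of (β i, -(M : ℤ)) * b))
    (hy : y = back (β j) ρ) (hn : n = back (β j) ν * FreeGroup.of (β j)) :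
    TopBot (β j) (β i) (y * (w * n * w⁻¹ * n⁻¹)) := by
  have e1 : β i ≠ β j := fun h => hij (β.injective h)
  have hM' : (1 : ℤ) ≤ M := by exact_mod_cast hM
  have hω : sh 1 (a * FreeGroup.of (β i, (M : ℤ)) * FreeGroup.of (β i, -(M : ℤ)) * b) =
      sh 1 a * FreeGroup.of (β i, (M : ℤ) + 1) * FreeGroup.of (β i, -(M : ℤ) + 1) * sh 1 b := by
    rw [map_mul, map_mul, map_mul, sh_of, sh_of]
  have h1 : n * w⁻¹ * n⁻¹ = back (β j) (ν * (sh 1 a * FreeGroup.of (β i, (M : ℤ) + 1) *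
      FreeGroup.of (β i, -(M : ℤ) + 1) * sh 1 b)⁻¹ * ν⁻¹) := by
    rw [← hω, map_mul, map_mul, map_inv, map_inv, back_sh, ← hw, hn]
    group
  have h3 : y * (w * n * w⁻¹ * n⁻¹) = back (β j) (ρ * (a * FreeGroup.of (β i, (M : ℤ)) *
      FreeGroup.of (β i, -(M : ℤ)) * b) * (ν * (sh 1 a * FreeGroup.of (β i, (M : ℤ) + 1) *
      FreeGroup.of (β i, -(M : ℤ) + 1) * sh 1 b)⁻¹ * ν⁻¹)) := by
    rw [map_mul, map_mul, ← h1, ← hw, ← hy]
    group
  have ga := sh_mid (β j) 1 ha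
  have gb := sh_mid (β j) 1 hb
  rw [show (0 : ℤ) + 1 = 1 by norm_num] at ga gb
  refine ⟨e1, -(M : ℤ), (M : ℤ) + 1, _, by omega, h3, ?_, ?_⟩
  · refine ⟨ρ * a * FreeGroup.of (β i, (M : ℤ)) * FreeGroup.of (β i, -(M : ℤ)) * b * ν *
      (sh 1 b)⁻¹ * (FreeGroup.of (β i, -(M : ℤ) + 1))⁻¹, ?_, (sh 1 a)⁻¹ * ν⁻¹, ?_, ?_⟩
    · have q1 := mid_mono (β j) (show -(M : ℤ) ≤ -(M : ℤ) + 1 by omega)
        (show (M : ℤ) ≤ (M : ℤ) + 1 - 1 by omega) hρ
      have q2 := mid_mono (β j) (show -(M : ℤ) ≤ -(M : ℤ) + 1 by omega)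
        (show (M : ℤ) ≤ (M : ℤ) + 1 - 1 by omega) hν
      have q3 := mid_mono (β j) (show -(M : ℤ) ≤ 0 by omega)
        (show 0 ≤ (M : ℤ) + 1 - 1 by omega) ha
      have q4 := mid_mono (β j) (show -(M : ℤ) ≤ 0 by omega)
        (show 0 ≤ (M : ℤ) + 1 - 1 by omega) hb
      have q5 := mid_mono (β j) (show -(M : ℤ) ≤ 1 by omega)
        (show 1 ≤ (M : ℤ) + 1 - 1 by omega) gb
      exact Subgroup.mul_mem _ (Subgroup.mul_mem _ (Subgroup.mul_mem _ (Subgroup.mul_mem _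
        (Subgroup.mul_mem _ (Subgroup.mul_mem _ (Subgroup.mul_mem _ q1 q3)
        (of_mid _ e1 (by omega) (by omega))) (of_mid _ e1 (by omega) (by omega))) q4) q2)
        (Subgroup.inv_mem _ q5)) (Subgroup.inv_mem _ (of_mid _ e1 (by omega) (by omega)))
    · have q2 := mid_mono (β j) (show -(M : ℤ) ≤ -(M : ℤ) + 1 by omega)
        (show (M : ℤ) ≤ (M : ℤ) + 1 - 1 by omega) hν
      have q5 := mid_mono (β j) (show -(M : ℤ) ≤ 1 by omega)
        (show 1 ≤ (M : ℤ) + 1 - 1 by omega) ga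
      exact Subgroup.mul_mem _ (Subgroup.inv_mem _ q5) (Subgroup.inv_mem _ q2)
    · group
  · refine ⟨ρ * a * FreeGroup.of (β i, (M : ℤ)), ?_, b * ν *
      (sh 1 b)⁻¹ * (FreeGroup.of (β i, -(M : ℤ) + 1))⁻¹ *
      (FreeGroup.of (β i, (M : ℤ) + 1))⁻¹ * (sh 1 a)⁻¹ * ν⁻¹, ?_, ?_⟩
    · have q1 := mid_mono (β j) (show -(M : ℤ) + 1 ≤ -(M : ℤ) + 1 by omega)
        (show (M : ℤ) ≤ (M : ℤ) + 1 by omega) hρ
      have q3 := mid_mono (β j) (show -(M : ℤ) + 1 ≤ 0 by omega)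
        (show 0 ≤ (M : ℤ) + 1 by omega) ha
      exact Subgroup.mul_mem _ (Subgroup.mul_mem _ q1 q3) (of_mid _ e1 (by omega) (by omega))
    · have q2 := mid_mono (β j) (show -(M : ℤ) + 1 ≤ -(M : ℤ) + 1 by omega)
        (show (M : ℤ) ≤ (M : ℤ) + 1 by omega) hν
      have q4 := mid_mono (β j) (show -(M : ℤ) + 1 ≤ 0 by omega)
        (show 0 ≤ (M : ℤ) + 1 by omega) hb
      have q5 := mid_mono (β j) (show -(M : ℤ) + 1 ≤ 1 by omega)
        (show 1 ≤ (M : ℤ) + 1 by omega) gb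
      have q6 := mid_mono (β j) (show -(M : ℤ) + 1 ≤ 1 by omega)
        (show 1 ≤ (M : ℤ) + 1 by omega) ga
      exact Subgroup.mul_mem _ (Subgroup.mul_mem _ (Subgroup.mul_mem _ (Subgroup.mul_mem _
        (Subgroup.mul_mem _ (Subgroup.mul_mem _ q4 q2) (Subgroup.inv_mem _ q5))
        (Subgroup.inv_mem _ (of_mid _ e1 (by omega) (by omega))))
        (Subgroup.inv_mem _ (of_mid _ e1 (by omega) (by omega)))) (Subgroup.inv_mem _ q6))
        (Subgroup.inv_mem _ q2)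
    · group

theorem t_TOP2 : S_TOP2 := by
  intro V R _ _ _ β r hr i
  classical
  let l : List R := (Finset.univ.erase i).toList
  have hl : ∀ k, k ∈ l ↔ k ≠ i := fun k => by
    show k ∈ (Finset.univ.erase i).toList ↔ _
    rw [Finset.mem_toList, Finset.mem_erase]
    exact ⟨fun h => h.1, fun h => ⟨h, Finset.mem_univ _⟩⟩
  have hn : l.Nodup := Finset.nodup_toList _
  set n' : FreeGroup V := (l.map r).prod with hn'
  have hn'o : n' ∈ others r i := by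
    rw [hn']
    apply Subgroup.list_prod_mem
    intro x hx
    obtain ⟨k, hk, rfl⟩ := List.mem_map.1 hx
    exact Subgroup.subset_normalClosure ⟨k, (hl k).1 hk, rfl⟩
  have hρ : ∀ j, ∃ (ρ : NN V) (T : ℕ), j ≠ i → (r i = back (β j) ρ ∧ ρ ∈ mid (β j) (-T) T) := by
    intro j
    obtain ⟨ρ, h1, h2⟩ := decomp (β j) (r i)
    obtain ⟨T, hT⟩ := ALL_mid (β j) h1
    refine ⟨ρ, T, fun hji => ⟨?_, hT⟩⟩
    rw [hr, Finsupp.single_apply, if_neg fun h => hji (β.injective h).symm, zpow_zero, mul_one] at h2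
    exact h2
  have hν : ∀ j, ∃ (ν : NN V) (T : ℕ), j ≠ i →
      (n' = back (β j) ν * FreeGroup.of (β j) ∧ ν ∈ mid (β j) (-T) T) := by
    intro j
    obtain ⟨ν, h1, h2⟩ := decomp (β j) n'
    obtain ⟨T, hT⟩ := ALL_mid (β j) h1
    refine ⟨ν, T, fun hji => ⟨?_, hT⟩⟩
    rw [hn', exp_prod β hr l hn j ((hl j).2 hji), zpow_one, ← hn'] at h2
    exact h2
  choose ρ Tρ hρ using hρ
  choose ν Tν hν using hν
  obtain ⟨M, hM⟩ : ∃ M : ℕ, 1 ≤ M ∧ ∀ j, Tρ j + 1 ≤ M ∧ Tν j + 1 ≤ M := by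
    obtain ⟨S, hS⟩ : ∃ S : ℕ, ∀ j, Tρ j + Tν j ≤ S :=
      ⟨∑ j, (Tρ j + Tν j), fun j =>
        Finset.single_le_sum (f := fun j => Tρ j + Tν j)
          (fun _ _ => Nat.zero_le _) (Finset.mem_univ j)⟩
    refine ⟨1 + S, by omega, fun j => ?_⟩
    have := hS j
    constructor <;> omega
  set w : FreeGroup V := (l.map (pk2 β i M)).prod with hw
  refine ⟨w * n' * w⁻¹ * n'⁻¹, ?_, ?_, ?_⟩
  · have : (others r i).Normal := Subgroup.normalClosure_normal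
    exact Subgroup.mul_mem _ (this.conj_mem _ hn'o w) (Subgroup.inv_mem _ hn'o)
  · have h : ∀ x y : Multiplicative (V →₀ ℤ), x * y * x⁻¹ * y⁻¹ = 1 := fun x y => by
      rw [mul_comm x y]
      group
    have h' : expSum V (w * n' * w⁻¹ * n'⁻¹) = 1 := by
      rw [map_mul (expSum V), map_mul (expSum V), map_mul (expSum V), map_inv (expSum V),
        map_inv (expSum V), h]
    rw [h']
    rfl
  · intro j hji
    obtain ⟨a, ha, b, hb, h⟩ := w2_top β (Ne.symm hji) M l hn ((hl j).2 hji)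
    have m1 := (hM.2 j).1
    have m2 := (hM.2 j).2
    exact one_dir2 β (Ne.symm hji) M hM.1 (r i) w n' a b (ρ j) (ν j) ha hb
      (mid_mono _ (by omega) (by omega) (hρ j hji).2)
      (mid_mono _ (by omega) (by omega) (hν j hji).2) h (hρ j hji).1 (hν j hji).1

end Run7.h178.SL
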