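import Pool.Agent.Run7.h178.SL.Main
import Pool.Agent.Run7.h178.SL.TOP2
import Pool.Agent.TH625.LOG.LI

/-! Assembly of the second version of the project SL: free kernels. -/

set_option autoImplicit false

open Pool.Agent.R655.LI Function

namespace Run7.h178.SL

/-- `G` has a homomorphism to `ℤ` with a free kernel -/
def FreeByInt (G : Type) [Group G] : Prop := ∃ f : G →* Multiplicative ℤ, IsFreeGroup f.ker

/-- `G` is the extension of a finitely generated free group by `ℤ`, so `G = F_m ⋊ ℤ` -/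
def FgFreeByInt (G : Type) [Group G] : Prop :=
  ∃ f : G →* Multiplicative ℤ, Surjective f ∧ IsFreeGroup f.ker ∧ f.ker.FG

theorem all_tops2 (hSl : S_SLIDE) {V R : Type} [Fintype V] [Fintype R] [DecidableEq R] (β : R ≃ V)
    (r : R → FreeGroup V) (hr : ∀ i, (expSum V (r i)).toAdd = Finsupp.single (β i) 1)
    (s : Finset R) : ∃ r' : R → FreeGroup V, QEq r r' ∧
      (∀ i, (expSum V (r' i)).toAdd = Finsupp.single (β i) 1) ∧
      ∀ i ∈ s, ∀ j, j ≠ i → TopBot (β j) (β i) (r' i) := by
  induction s using Finset.induction_on with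
  | empty => exact ⟨r, Relation.ReflTransGen.refl, hr, fun i hi => absurd hi (Finset.notMem_empty i)⟩
  | insert i s _ ih =>
    obtain ⟨r', h1, h2, h3⟩ := ih
    obtain ⟨n, hn, h0, ht⟩ := t_TOP2 V R β r' h2 i
    refine ⟨Function.update r' i (r' i * n), h1.trans ((hSl R (FreeGroup V)).1 r' i n hn), ?_, ?_⟩
    · intro k
      by_cases hk : k = i
      · subst hk
        rw [Function.update_self, map_mul, toAdd_mul, h2, h0, add_zero]
      · rw [Function.update_of_ne hk, h2]
    · intro k hk j hj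
      by_cases hki : k = i
      · subst hki
        rw [Function.update_self]
        exact ht j hj
      · rw [Function.update_of_ne hki]
        exact h3 k ((Finset.mem_insert.1 hk).resolve_left hki) j hj

/-- The words version: relators whose exponent sum vectors generate `ℤ ^ V`, `|R| = |V|`. -/
theorem words2 (hSl : S_SLIDE) (hGa : S_GAUSS) {V R : Type} [Fintype V] [Fintype R] [DecidableEq R]
    (β : R ≃ V) (r : R → FreeGroup V)
    (hr : Submodule.span ℤ (Set.range fun i => (expSum V (r i)).toAdd) = ⊤) :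
    ∃ r' : R → FreeGroup V, QEq r r' ∧
      (∀ i, (expSum V (r' i)).toAdd = Finsupp.single (β i) 1) ∧
      ∀ i j, j ≠ i → TopBot (β j) (β i) (r' i) := by
  obtain ⟨r₀, h0, h1⟩ := hGa V R β r hr
  obtain ⟨r', h2, h3, h4⟩ := all_tops2 hSl β r₀ h1 Finset.univ
  exact ⟨r', h0.trans h2, h3, fun i => h4 i (Finset.mem_univ i)⟩

theorem free_of_inj {A B : Type} [Group A] [Group B] (φ : A →* B) (hφ : Injective φ)
    (hB : IsFreeGroup B) : IsFreeGroup A := by
  have h1 : IsFreeGroup φ.range := subgroupIsFreeOfIsFree φ.range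
  exact IsFreeGroup.ofMulEquiv (MonoidHom.ofInjective hφ).symm

/-- groups which embed in a group with a free kernel -/
theorem freeByInt_of_inj {G A : Type} [Group G] [Group A] (g : G →* A) (hg : Injective g)
    (h : FreeByInt A) : FreeByInt G := by
  obtain ⟨f, hf⟩ := h
  refine ⟨f.comp g, ?_⟩
  let φ : (f.comp g).ker →* f.ker :=
    (g.comp (f.comp g).ker.subtype).codRestrict f.ker fun x => MonoidHom.mem_ker.2
      (MonoidHom.mem_ker.1 x.2)
  refine free_of_inj φ ?_ hf
  intro x y hxy
  have h1 : g x = g y := congrArg Subtype.val hxy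
  exact Subtype.ext (hg h1)

/-- groups with a free kernel are locally indicable -/
theorem locInd_of_freeByInt {G : Type} [Group G] (h : FreeByInt G) : LocInd G := by
  obtain ⟨f, hf⟩ := h
  intro H hH hne
  by_cases hk : H ≤ f.ker
  · let e : H →* f.ker := Subgroup.inclusion hk
    have he : Injective e := Subgroup.inclusion_injective hk
    have hfree : IsFreeGroup H := free_of_inj e he hf
    have : Nonempty (IsFreeGroup.Generators H) := by
      by_contra h0
      rw [not_nonempty_iff] at h0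
      apply hne
      rw [Subgroup.eq_bot_iff_forall]
      intro x hx
      have h1 : (MonoidHom.id H) = 1 := IsFreeGroup.ext_hom fun a => (h0.false a).elim
      have h2 : (⟨x, hx⟩ : H) = 1 := DFunLike.congr_fun h1 ⟨x, hx⟩
      exact congrArg Subtype.val h2
    obtain ⟨a⟩ := this
    refine Pool.Agent.TH625.LOG.surj_of_ne
      (IsFreeGroup.lift fun _ => Multiplicative.ofAdd (1 : ℤ)) ⟨IsFreeGroup.of a, ?_⟩
    rw [IsFreeGroup.lift_of]
    decide
  · refine Pool.Agent.TH625.LOG.surj_of_ne (f.comp H.subtype) ?_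
    by_contra h
    push Not at h
    exact hk fun x hx => MonoidHom.mem_ker.2 (h ⟨x, hx⟩)

/-- the fundamental groups of the subcomplexes without at least one 2-cell -/
theorem subs2 (hFr : S_FREE) (V R : Type) [Fintype V] (β : R ≃ V) (r : R → FreeGroup V)
    (ht : ∀ i j, j ≠ i → TopBot (β j) (β i) (r i)) (K : Cx)
    (s : Sub K (Cx.mk V R r)) (hs : ¬ Surjective s.c) : FreeByInt K.Pi := by
  obtain ⟨g, hg⟩ := embeds s
  apply freeByInt_of_inj g hg
  obtain ⟨j, hj⟩ : ∃ j, ∀ k, s.c k ≠ j := by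
    by_contra h
    push Not at h
    exact hs h
  obtain ⟨f, -, hf, -⟩ := hFr V K.R (fun k => β (s.c k)) (fun k => r (s.c k)) (β j)
    (fun a b h => s.c.injective (β.injective h)) fun k => ht (s.c k) j fun h => hj k h.symm
  exact ⟨f, hf⟩

/-- one 2-cell is missing -/
theorem del2 (hFr : S_FREE) (V R : Type) [Fintype V] (β : R ≃ V) (r : R → FreeGroup V)
    (ht : ∀ i j, j ≠ i → TopBot (β j) (β i) (r i)) (e : R) :
    FgFreeByInt ((Cx.mk V R r).del e).Pi := by
  obtain ⟨f, h1, h2, h3⟩ := hFr V {k : R // k ≠ e} (fun k => β k.1) (fun k => r k.1) (β e)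
    (fun a b h => Subtype.ext (β.injective h)) fun k => ht k.1 e k.2.symm
  refine ⟨f, h1, h2, h3 fun v hv => ?_⟩
  refine ⟨⟨β.symm v, fun h => hv ?_⟩, β.apply_symm_apply v⟩
  rw [← h, β.apply_symm_apply]

/-- the whole complex -/
theorem whole (V R : Type) (r : R → FreeGroup V)
    (h1 : ∀ x : (Cx.mk V R r).Pi, x = 1) (K : Cx)
    (s : Sub K (Cx.mk V R r)) (hc : Surjective s.c) : ∀ x : K.Pi, x = 1 := by
  obtain ⟨f, hf⟩ := embeds s
  intro x
  apply hf
  rw [map_one]
  obtain ⟨w, hw⟩ := PresentedGroup.mk_surjective _ (f x)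
  rw [← hw, PresentedGroup.mk_eq_one_iff]
  have h2 : Set.range (fun k : K.R => (Cx.mk V R r).r (s.c k)) = Set.range r := by
    ext y
    constructor
    · rintro ⟨k, rfl⟩
      exact ⟨s.c k, rfl⟩
    · rintro ⟨i, rfl⟩
      obtain ⟨k, rfl⟩ := hc i
      exact ⟨k, rfl⟩
  rw [h2]
  exact PresentedGroup.mk_eq_one_iff.1 (h1 (PresentedGroup.mk _ w))

theorem freeByInt_of_trivial {G : Type} [Group G] (h : ∀ x : G, x = 1) : FreeByInt G := by
  refine ⟨1, free_of_inj (1 : _ →* FreeGroup Empty) (fun x y _ => ?_) inferInstance⟩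
  exact Subtype.ext ((h x).trans (h y).symm)

/-- **Main theorem** (from the pieces). -/
theorem main2 (hSl : S_SLIDE) (hGa : S_GAUSS) (hFr : S_FREE) (L : Cx) [DecidableEq L.R]
    (hL : L.Contractible) (hfin : L.IsFin) : ∃ r' : L.R → FreeGroup L.V, QEq L.r r' ∧
      (Cx.mk L.V L.R r').Contractible ∧
      (∀ e : L.R, FgFreeByInt ((Cx.mk L.V L.R r').del e).Pi) ∧
      ∀ (K : Cx) (_ : Sub K (Cx.mk L.V L.R r')), FreeByInt K.Pi ∧ LocInd K.Pi ∧ Asph K := by
  classical
  obtain ⟨hV, hR⟩ := hfin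
  have : Fintype L.V := Fintype.ofFinite _
  have : Fintype L.R := Fintype.ofFinite _
  have hbij : Bijective L.bdry := ⟨hL.bdry_inj, bdry_surj hL⟩
  have hcard : Fintype.card L.R = Fintype.card L.V := by
    have h := (LinearEquiv.ofBijective L.bdry hbij).finrank_eq
    rwa [Module.finrank_finsupp_self, Module.finrank_finsupp_self] at h
  obtain β : L.R ≃ L.V := Fintype.equivOfCardEq hcard
  have hspan : Submodule.span ℤ (Set.range fun i => (expSum L.V (L.r i)).toAdd) = ⊤ := by
    rw [← Finsupp.range_linearCombination]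
    exact LinearMap.range_eq_top.2 (bdry_surj hL)
  obtain ⟨r', h1, h2, h3⟩ := words2 hSl hGa β L.r hspan
  have hcl := (hSl L.R (FreeGroup L.V)).2.1 L.r r' h1
  have hpi : ∀ x : (Cx.mk L.V L.R r').Pi, x = 1 := by
    intro x
    obtain ⟨w, rfl⟩ := PresentedGroup.mk_surjective _ x
    rw [PresentedGroup.mk_eq_one_iff]
    show w ∈ Subgroup.normalClosure (Set.range r')
    rw [hcl]
    exact PresentedGroup.mk_eq_one_iff.1 (hL.pi_eq_one (PresentedGroup.mk _ w))
  have hc : (Cx.mk L.V L.R r').Contractible := by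
    refine ⟨hpi, ?_⟩
    rw [injective_iff_map_eq_zero]
    intro c hc0
    have h4 : (Cx.mk L.V L.R r').bdry c = Finsupp.mapDomain β c := by
      show Finsupp.linearCombination ℤ (fun j => (expSum L.V (r' j)).toAdd) c = _
      rw [Finsupp.linearCombination_apply, Finsupp.mapDomain]
      refine Finsupp.sum_congr fun i _ => ?_
      rw [h2, Finsupp.smul_single, smul_eq_mul, mul_one]
    rw [h4] at hc0
    exact Finsupp.mapDomain_injective β.injective (by rw [hc0, Finsupp.mapDomain_zero])
  refine ⟨r', h1, hc, del2 hFr L.V L.R β r' h3, fun K s => ?_⟩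
  have h5 : FreeByInt K.Pi := by
    by_cases hs : Surjective s.c
    · exact freeByInt_of_trivial (whole L.V L.R r' hpi K s hs)
    · exact subs2 hFr L.V L.R β r' h3 K s hs
  exact ⟨h5, locInd_of_freeByInt h5, asph s hc (locInd_of_freeByInt h5)⟩

/-- the version for acyclic complexes -/
theorem acyclic2 (hSl : S_SLIDE) (hGa : S_GAUSS) (hFr : S_FREE) (V R : Type) [Fintype V]
    [Fintype R] [DecidableEq R] (r : R → FreeGroup V) (hc : Fintype.card R = Fintype.card V)
    (hr : Submodule.span ℤ (Set.range fun i => (expSum V (r i)).toAdd) = ⊤) :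
    ∃ r' : R → FreeGroup V, QEq r r' ∧
      Subgroup.normalClosure (Set.range r') = Subgroup.normalClosure (Set.range r) ∧
      (∀ e : R, FgFreeByInt ((Cx.mk V R r').del e).Pi) ∧
      ∀ (K : Cx) (s : Sub K (Cx.mk V R r')), ¬ Surjective s.c → FreeByInt K.Pi ∧ LocInd K.Pi := by
  obtain ⟨r', h1, h2, h3⟩ := words2 hSl hGa (Fintype.equivOfCardEq hc) r hr
  refine ⟨r', h1, (hSl R (FreeGroup V)).2.1 r r' h1,
    del2 hFr V R (Fintype.equivOfCardEq hc) r' h3, fun K s hs => ?_⟩
  have h5 := subs2 hFr V R (Fintype.equivOfCardEq hc) r' h3 K s hs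
  exact ⟨h5, locInd_of_freeByInt h5⟩

end Run7.h178.SL
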