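import Pool.Agent.R655.LI.Test

/-!
# Contractible 2-complexes after slides of the 2-cells: interface (MP_cf50d6_gt, MP_6de9fc_gt)

THEOREM. The attaching words `r` of the 2-cells of a finite contractible 2-complex with one vertex can be
changed by finitely many slides (`QEq`: multiply one relator by another one, invert, conjugate) such
that all subcomplexes of the new (contractible) 2-complex are aspherical and have locally indicable
fundamental groups.

Proof. GAUSS: by slides the exponent sum vectors become unit vectors: `expSum (r i) = single (β i) 1`,
`β : R ≃ V`. TOP: let `i` be a relator, put `x_k = of (β k)`,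
`w = ∏_{k ≠ i} x_k ^ M * x_i * x_k ^ (-M)`, `n = ∏_{k ≠ i} r k`; replace `r i` by `r i * (w n w⁻¹ n⁻¹)`, which
is a slide (SLIDE) since `w n w⁻¹ n⁻¹` is in the normal closure of the other relators. For every `j ≠ i` rewrite
`r i` in the letters `(v, h) = x_j ^ h * x_v * x_j ^ (-h)`, `v ≠ β j` (the exponent sum of `x_j` is `0`): for large `M`
the letter `(β i, M + 1)` occurs exactly once, all other letters have smaller heights `h`. Do this for one
relator after the other. LI: the relators different from `j` now present a group whose kernel of the
exponent sum of `x_j` is locally indicable: the relation `i`, shifted by `k`, expresses the letter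
`(β i, T i + k)` by letters of smaller heights, so for finitely many shifted relators there is an
endomorphism of the free group on the letters which kills them and is the identity modulo the relators.
-/

set_option autoImplicit false

open Pool.Agent.R655.LI

namespace Run7.h178.SL

/-- one slide of the family `r` of elements of a group: multiply `r j` on the right by another `r k`,
invert `r j`, or conjugate `r j` by a group element -/
inductive QStep {R G : Type} [Group G] [DecidableEq R] : (R → G) → (R → G) → Prop
  | mul (r : R → G) (j k : R) (h : j ≠ k) : QStep r (Function.update r j (r j * r k))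
  | inv (r : R → G) (j : R) : QStep r (Function.update r j (r j)⁻¹)
  | conj (r : R → G) (j : R) (w : G) : QStep r (Function.update r j (w * r j * w⁻¹))

/-- finitely many slides -/
def QEq {R G : Type} [Group G] [DecidableEq R] (r r' : R → G) : Prop :=
  Relation.ReflTransGen QStep r r'

/-- the normal closure of the relators other than `j` -/
def others {R G : Type} [Group G] (r : R → G) (j : R) : Subgroup G :=
  Subgroup.normalClosure {x | ∃ k, k ≠ j ∧ x = r k}

/-- SLIDE (60 lines). Elementary facts.
1. `r j` may be multiplied by any element of the normal closure of the other relators (closure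
induction; the others do not change; for `g * r k ^ (±1) * g⁻¹`: conjugate / invert `r k`, multiply, conjugate /
invert back); 2. the normal closure does not change; 3. symmetric. -/
def S_SLIDE : Prop := ∀ (R G : Type) [Group G] [DecidableEq R],
  (∀ (r : R → G) (j : R) (n : G), n ∈ others r j → QEq r (Function.update r j (r j * n))) ∧
  (∀ r r' : R → G, QEq r r' →
    Subgroup.normalClosure (Set.range r') = Subgroup.normalClosure (Set.range r)) ∧
  (∀ r r' : R → G, QEq r r' → QEq r' r)

/-- GAUSS (120 lines; uses SLIDE). Row operations over `ℤ`.
Proof: `|R| = |V|` and the exponent sum vectors `a i = expSum (r i)` generate `ℤ^V`. Choose `β : R ≃ V`. For a set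
`D` of treated columns, with `a i (β k) = δ_ik` for all `i` and `β k ∈ D`: let `β k ∉ D` be the next column. Since
`single (β k) 1 = ∑ c i • a i`, and `c i = 0` for `β i ∈ D` (look at the columns of `D`), the entries `a i (β k)` with
`β i ∉ D` have gcd `1`. By Euclid (multiply rows `i` with `β i ∉ D` by each other, invert; induction on
`∑ |a i (β k)|` over these rows) one gets `a k (β k) = 1` and `0` in the others (a swap is a composition of slides);
then clear the column `β k` in the rows `i` with `β i ∈ D` by adding multiples of the row `k` (its entries in the
columns of `D` are `0`). -/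
def S_GAUSS : Prop := ∀ (V R : Type) [Fintype V] [Fintype R] [DecidableEq R] (β : R ≃ V)
  (r : R → FreeGroup V),
  Submodule.span ℤ (Set.range fun i => (expSum V (r i)).toAdd) = ⊤ →
  ∃ r' : R → FreeGroup V, QEq r r' ∧ ∀ i, (expSum V (r' i)).toAdd = Finsupp.single (β i) 1

/-- the free group on the letters `(v, h)` -/
abbrev NN (V : Type) : Type := FreeGroup (V × ℤ)

/-- the letters of height `< T`, without those of the generator `v₀` -/
def below {V : Type} (v₀ : V) (T : ℤ) : Subgroup (NN V) :=
  Subgroup.closure {x | ∃ v h, v ≠ v₀ ∧ h < T ∧ x = FreeGroup.of (v, h)}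

/-- back to the words: the letter `(v, h)` is `x₀ ^ h * x_v * x₀ ^ (-h)` -/
def back {V : Type} (v₀ : V) : NN V →* FreeGroup V :=
  FreeGroup.lift fun p => FreeGroup.of v₀ ^ p.2 * FreeGroup.of p.1 * (FreeGroup.of v₀ ^ p.2)⁻¹

/-- the word `y` has, with respect to the direction `v₀`, exactly one letter of maximal height, and this
is a letter of the generator `v₁ ≠ v₀` -/
def Top {V : Type} (v₀ v₁ : V) (y : FreeGroup V) : Prop :=
  v₁ ≠ v₀ ∧ ∃ (T : ℤ) (u v : NN V), u ∈ below v₀ T ∧ v ∈ below v₀ T ∧
    y = back v₀ (u * (FreeGroup.of (v₁, T))⁻¹ * v)

/-- TOP (150 lines). One relator is changed by the normal closure of the others. -/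
def S_TOP : Prop := ∀ (V R : Type) [Fintype V] [Fintype R] [DecidableEq R] (β : R ≃ V)
  (r : R → FreeGroup V), (∀ i, (expSum V (r i)).toAdd = Finsupp.single (β i) 1) → ∀ i : R,
  ∃ n ∈ others r i, (expSum V n).toAdd = 0 ∧ ∀ j, j ≠ i → Top (β j) (β i) (r i * n)

/-- LI (200 lines). -/
def S_LI : Prop := ∀ (V R : Type) [Finite V] (β : R → V) (r : R → FreeGroup V) (v₀ : V),
  Function.Injective β → (∀ i, Top v₀ (β i) (r i)) → LocInd (PresentedGroup (Set.range r))

end Run7.h178.SL
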