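import Pool.Agent.Run7.h178.SL.Stm

/-! Piece TOP of the interface `Run7/h178/SL/Stm`: one relator is changed by an element of the normal
closure of the others such that it gets a unique top letter in all directions. -/

set_option autoImplicit false

open Pool.Agent.R655.LI

namespace Run7.h178.SL

section
variable {V : Type}

/-- the shift of the heights -/
def sh (k : ℤ) : NN V →* NN V := FreeGroup.map fun p => (p.1, p.2 + k)

theorem sh_of (k : ℤ) (v : V) (h : ℤ) : sh k (FreeGroup.of (v, h)) = FreeGroup.of (v, h + k) := by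
  unfold sh
  rw [FreeGroup.map.of]

theorem back_of (v₀ v : V) (h : ℤ) : back v₀ (FreeGroup.of (v, h)) =
    FreeGroup.of v₀ ^ h * FreeGroup.of v * (FreeGroup.of v₀ ^ h)⁻¹ := by
  unfold back
  rw [FreeGroup.lift_apply_of]

theorem back_sh (v₀ : V) (k : ℤ) (a : NN V) :
    back v₀ (sh k a) = FreeGroup.of v₀ ^ k * back v₀ a * (FreeGroup.of v₀ ^ k)⁻¹ := by
  have h : (back v₀).comp (sh k) =
      (MulAut.conj (FreeGroup.of v₀ ^ k)).toMonoidHom.comp (back v₀) := by
    ext p
    obtain ⟨v, h⟩ := p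
    show back v₀ (sh k (FreeGroup.of (v, h))) =
      FreeGroup.of v₀ ^ k * back v₀ (FreeGroup.of (v, h)) * (FreeGroup.of v₀ ^ k)⁻¹
    rw [sh_of, back_of, back_of, zpow_add]
    have hc : FreeGroup.of v₀ ^ h * FreeGroup.of v₀ ^ k = FreeGroup.of v₀ ^ k * FreeGroup.of v₀ ^ h := by
      rw [← zpow_add, ← zpow_add, add_comm]
    rw [hc]
    group
  exact DFunLike.congr_fun h a

/-- all letters except those of the generator `v₀` -/
def ALL (v₀ : V) : Subgroup (NN V) :=
  Subgroup.closure {x | ∃ v h, v ≠ v₀ ∧ x = FreeGroup.of (v, h)}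

theorem sh_ALL (v₀ : V) (k : ℤ) {a : NN V} (ha : a ∈ ALL v₀) : sh k a ∈ ALL v₀ := by
  induction ha using Subgroup.closure_induction with
  | mem x hx =>
    obtain ⟨v, h, hv, rfl⟩ := hx
    rw [sh_of]
    exact Subgroup.subset_closure ⟨v, h + k, hv, rfl⟩
  | one => rw [map_one]; exact Subgroup.one_mem _
  | mul x y _ _ h1 h2 => rw [map_mul]; exact Subgroup.mul_mem _ h1 h2
  | inv x _ h1 => rw [map_inv]; exact Subgroup.inv_mem _ h1

theorem sh_below (v₀ : V) (k T : ℤ) {a : NN V} (ha : a ∈ below v₀ T) :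
    sh k a ∈ below v₀ (T + k) := by
  induction ha using Subgroup.closure_induction with
  | mem x hx =>
    obtain ⟨v, h, hv, hh, rfl⟩ := hx
    rw [sh_of]
    exact Subgroup.subset_closure ⟨v, h + k, hv, by omega, rfl⟩
  | one => rw [map_one]; exact Subgroup.one_mem _
  | mul x y _ _ h1 h2 => rw [map_mul]; exact Subgroup.mul_mem _ h1 h2
  | inv x _ h1 => rw [map_inv]; exact Subgroup.inv_mem _ h1

theorem below_mono (v₀ : V) {T T' : ℤ} (h : T ≤ T') : below v₀ T ≤ below v₀ T' := by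
  apply Subgroup.closure_mono
  rintro x ⟨v, k, hv, hk, rfl⟩
  exact ⟨v, k, hv, by omega, rfl⟩

theorem of_below (v₀ : V) {v : V} (hv : v ≠ v₀) {h T : ℤ} (hT : h < T) :
    (FreeGroup.of (v, h) : NN V) ∈ below v₀ T :=
  Subgroup.subset_closure ⟨v, h, hv, hT, rfl⟩

theorem ALL_below (v₀ : V) {a : NN V} (ha : a ∈ ALL v₀) : ∃ T : ℤ, a ∈ below v₀ T := by
  induction ha using Subgroup.closure_induction with
  | mem x hx =>
    obtain ⟨v, h, hv, rfl⟩ := hx
    exact ⟨h + 1, of_below v₀ hv (by omega)⟩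
  | one => exact ⟨0, Subgroup.one_mem _⟩
  | mul x y _ _ h1 h2 =>
    obtain ⟨T1, h1⟩ := h1
    obtain ⟨T2, h2⟩ := h2
    exact ⟨max T1 T2, Subgroup.mul_mem _ (below_mono v₀ (le_max_left _ _) h1)
      (below_mono v₀ (le_max_right _ _) h2)⟩
  | inv x _ h1 =>
    obtain ⟨T1, h1⟩ := h1
    exact ⟨T1, Subgroup.inv_mem _ h1⟩

/-- every word is `back` of a word in the letters, times a power of `x₀` -/
theorem decomp (v₀ : V) (w : FreeGroup V) :
    ∃ ν ∈ ALL v₀, w = back v₀ ν * FreeGroup.of v₀ ^ ((expSum V w).toAdd v₀) := by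
  classical
  induction w using FreeGroup.induction_on with
  | C1 =>
    refine ⟨1, Subgroup.one_mem _, ?_⟩
    rw [map_one, map_one]
    simp
  | of v =>
    have he : (expSum V (FreeGroup.of v)).toAdd = Finsupp.single v 1 := by
      unfold expSum
      rw [FreeGroup.lift_apply_of]
      rfl
    rw [he]
    by_cases hv : v = v₀
    · refine ⟨1, Subgroup.one_mem _, ?_⟩
      rw [hv, map_one, Finsupp.single_eq_same]
      simp
    · refine ⟨FreeGroup.of (v, 0), Subgroup.subset_closure ⟨v, 0, hv, rfl⟩, ?_⟩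
      rw [back_of, Finsupp.single_eq_of_ne (by simpa using Ne.symm hv)]
      simp
  | inv_of v ih =>
    obtain ⟨ν, hν, h⟩ := ih
    set e := (expSum V (FreeGroup.of v)).toAdd v₀ with he
    refine ⟨sh (-e) ν⁻¹, sh_ALL _ _ (Subgroup.inv_mem _ hν), ?_⟩
    have h1 : (expSum V (FreeGroup.of v)⁻¹).toAdd v₀ = -e := by
      rw [map_inv, toAdd_inv, Finsupp.neg_apply]
    rw [h1, back_sh, map_inv]
    conv_lhs => rw [h]
    group
  | mul x y hx hy =>
    obtain ⟨ν, hν, h⟩ := hx
    obtain ⟨μ, hμ, h'⟩ := hy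
    set e := (expSum V x).toAdd v₀ with he
    set f := (expSum V y).toAdd v₀ with hf
    refine ⟨ν * sh e μ, Subgroup.mul_mem _ hν (sh_ALL _ _ hμ), ?_⟩
    have h1 : (expSum V (x * y)).toAdd v₀ = e + f := by
      rw [map_mul, toAdd_mul, Finsupp.add_apply]
    rw [h1, map_mul, back_sh]
    conv_lhs => rw [h, h']
    group

end

section
variable {V R : Type} [Fintype V] [Fintype R] [DecidableEq R] (β : R ≃ V)

/-- the peaks -/
def pk (i : R) (M : ℕ) (k : R) : FreeGroup V :=
  FreeGroup.of (β k) ^ (M : ℤ) * FreeGroup.of (β i) * (FreeGroup.of (β k) ^ (M : ℤ))⁻¹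

omit [Fintype V] [Fintype R] [DecidableEq R] in
theorem pk_top (i j : R) (M : ℕ) : pk β i M j = back (β j) (FreeGroup.of (β i, (M : ℤ))) := by
  rw [back_of]
  rfl

omit [Fintype V] [Fintype R] [DecidableEq R] in
theorem pk_low {i j k : R} (hi : i ≠ j) (hk : k ≠ j) (M : ℕ) :
    ∃ a ∈ below (β j) 1, pk β i M k = back (β j) a := by
  have e1 : β i ≠ β j := fun h => hi (β.injective h)
  have e2 : β k ≠ β j := fun h => hk (β.injective h)
  refine ⟨FreeGroup.of (β k, 0) ^ (M : ℤ) * FreeGroup.of (β i, 0) *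
    (FreeGroup.of (β k, 0) ^ (M : ℤ))⁻¹, ?_, ?_⟩
  · exact Subgroup.mul_mem _ (Subgroup.mul_mem _
      (Subgroup.zpow_mem _ (of_below _ e2 (by norm_num)) _) (of_below _ e1 (by norm_num)))
      (Subgroup.inv_mem _ (Subgroup.zpow_mem _ (of_below _ e2 (by norm_num)) _))
  · rw [map_mul, map_mul, map_inv, map_zpow, back_of, back_of]
    unfold pk
    simp

omit [Fintype V] [Fintype R] [DecidableEq R] in
theorem w_low {i j : R} (hi : i ≠ j) (M : ℕ) (l : List R) (hl : ∀ k ∈ l, k ≠ j) :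
    ∃ a ∈ below (β j) 1, (l.map (pk β i M)).prod = back (β j) a := by
  induction l with
  | nil => exact ⟨1, Subgroup.one_mem _, by rw [map_one]; rfl⟩
  | cons k l ih =>
    obtain ⟨a, ha, h⟩ := ih fun x hx => hl x (List.mem_cons_of_mem _ hx)
    obtain ⟨b, hb, h'⟩ := pk_low β hi (hl k List.mem_cons_self) M
    exact ⟨b * a, Subgroup.mul_mem _ hb ha, by rw [List.map_cons, List.prod_cons, h, h', map_mul]⟩

omit [Fintype V] [Fintype R] [DecidableEq R] in
theorem w_top {i j : R} (hi : i ≠ j) (M : ℕ) (l : List R) (hn : l.Nodup) (hj : j ∈ l) :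
    ∃ a ∈ below (β j) 1, ∃ b ∈ below (β j) 1,
      (l.map (pk β i M)).prod = back (β j) (a * FreeGroup.of (β i, (M : ℤ)) * b) := by
  induction l with
  | nil => exact absurd hj List.not_mem_nil
  | cons k l ih =>
    obtain ⟨hk, hn'⟩ := List.nodup_cons.1 hn
    by_cases hkj : k = j
    · subst hkj
      obtain ⟨b, hb, h⟩ := w_low β hi M l fun x hx hxk => hk (hxk ▸ hx)
      refine ⟨1, Subgroup.one_mem _, b, hb, ?_⟩
      rw [List.map_cons, List.prod_cons, h, pk_top, one_mul, map_mul]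
    · have hj' : j ∈ l := by
        rcases List.mem_cons.1 hj with h | h
        · exact absurd h.symm hkj
        · exact h
      obtain ⟨a, ha, b, hb, h⟩ := ih hn' hj'
      obtain ⟨c, hc, h'⟩ := pk_low β hi hkj M
      refine ⟨c * a, Subgroup.mul_mem _ hc ha, b, hb, ?_⟩
      rw [List.map_cons, List.prod_cons, h, h', ← map_mul]
      congr 1
      group

omit [Fintype V] in
theorem exp_prod {r : R → FreeGroup V} (hr : ∀ i, (expSum V (r i)).toAdd = Finsupp.single (β i) 1)
    (l : List R) (hn : l.Nodup) (j : R) (hj : j ∈ l) :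
    (expSum V (l.map r).prod).toAdd (β j) = 1 := by
  classical
  have h0 : ∀ l : List R, j ∉ l → (expSum V (l.map r).prod).toAdd (β j) = 0 := by
    intro l
    induction l with
    | nil => intro _; rw [List.map_nil, List.prod_nil, map_one]; rfl
    | cons k l ih =>
      intro h
      rw [List.map_cons, List.prod_cons, map_mul, toAdd_mul, Finsupp.add_apply,
        ih fun h' => h (List.mem_cons_of_mem _ h'), hr, Finsupp.single_apply, if_neg, add_zero]
      intro h'
      exact h (β.injective h' ▸ List.mem_cons_self)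
  induction l with
  | nil => exact absurd hj List.not_mem_nil
  | cons k l ih =>
    obtain ⟨hk, hn'⟩ := List.nodup_cons.1 hn
    rw [List.map_cons, List.prod_cons, map_mul, toAdd_mul, Finsupp.add_apply, hr,
      Finsupp.single_apply]
    by_cases hkj : k = j
    · subst hkj
      rw [if_pos rfl, h0 l hk, add_zero]
    · have hj' : j ∈ l := by
        rcases List.mem_cons.1 hj with h | h
        · exact absurd h.symm hkj
        · exact h
      rw [if_neg fun h => hkj (β.injective h), ih hn' hj', zero_add]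

end

/-- one direction -/
theorem one_dir {V R : Type} (β : R ≃ V) {i j : R} (hij : i ≠ j)
    (M : ℕ) (hM : 1 ≤ M) (y w n : FreeGroup V) (a b ρ ν : NN V)
    (ha : a ∈ below (β j) 1) (hb : b ∈ below (β j) 1)
    (hρ : ρ ∈ below (β j) (M + 1)) (hν : ν ∈ below (β j) (M + 1))
    (hw : w = back (β j) (a * FreeGroup.of (β i, (M : ℤ)) * b))
    (hy : y = back (β j) ρ) (hn : n = back (β j) ν * FreeGroup.of (β j)) :
    Top (β j) (β i) (y * (w * n * w⁻¹ * n⁻¹)) := by
  have e1 : β i ≠ β j := fun h => hij (β.injective h)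
  have hM' : (1 : ℤ) ≤ M := by exact_mod_cast hM
  refine ⟨e1, (M : ℤ) + 1, ρ * a * FreeGroup.of (β i, (M : ℤ)) * b * ν * (sh 1 b)⁻¹,
    (sh 1 a)⁻¹ * ν⁻¹, ?_, ?_, ?_⟩
  · have g1 := below_mono (β j) (show (1 : ℤ) ≤ M + 1 by omega) ha
    have g2 := below_mono (β j) (show (1 : ℤ) ≤ M + 1 by omega) hb
    have g3 := below_mono (β j) (show (1 : ℤ) + 1 ≤ M + 1 by omega) (sh_below (β j) 1 1 hb)
    exact Subgroup.mul_mem _ (Subgroup.mul_mem _ (Subgroup.mul_mem _ (Subgroup.mul_mem _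
      (Subgroup.mul_mem _ hρ g1) (of_below _ e1 (by omega))) g2) hν) (Subgroup.inv_mem _ g3)
  · have g3 := below_mono (β j) (show (1 : ℤ) + 1 ≤ M + 1 by omega) (sh_below (β j) 1 1 ha)
    exact Subgroup.mul_mem _ (Subgroup.inv_mem _ g3) (Subgroup.inv_mem _ hν)
  · have h1 : n * w⁻¹ * n⁻¹ = back (β j) (ν * (sh 1 a * FreeGroup.of (β i, (M : ℤ) + 1) * sh 1 b)⁻¹ *
        ν⁻¹) := by
      have h2 : sh 1 (a * FreeGroup.of (β i, (M : ℤ)) * b) =
          sh 1 a * FreeGroup.of (β i, (M : ℤ) + 1) * sh 1 b := by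
        rw [map_mul, map_mul, sh_of]
      rw [← h2, map_mul, map_mul, map_inv, map_inv, back_sh, ← hw, hn]
      group
    have h3 : y * (w * n * w⁻¹ * n⁻¹) = y * w * (n * w⁻¹ * n⁻¹) := by group
    rw [h3, h1, hy, hw, ← map_mul, ← map_mul]
    congr 1
    group

theorem t_TOP : S_TOP := by
  intro V R _ _ _ β r hr i
  classical
  let l : List R := (Finset.univ.erase i).toList
  have hl : ∀ k, k ∈ l ↔ k ≠ i := fun k => by
    show k ∈ (Finset.univ.erase i).toList ↔ _
    rw [Finset.mem_toList, Finset.mem_erase]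
    exact ⟨fun h => h.1, fun h => ⟨h, Finset.mem_univ _⟩⟩
  have hn : l.Nodup := Finset.nodup_toList _
  set n' : FreeGroup V := (l.map r).prod with hn'
  have hn'o : n' ∈ others r i := by
    rw [hn']
    apply Subgroup.list_prod_mem
    intro x hx
    obtain ⟨k, hk, rfl⟩ := List.mem_map.1 hx
    exact Subgroup.subset_normalClosure ⟨k, (hl k).1 hk, rfl⟩
  -- the words in the letters
  have hρ : ∀ j, ∃ ρ T, j ≠ i → (r i = back (β j) ρ ∧ ρ ∈ below (β j) T) := by
    intro j
    obtain ⟨ρ, h1, h2⟩ := decomp (β j) (r i)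
    obtain ⟨T, hT⟩ := ALL_below (β j) h1
    refine ⟨ρ, T, fun hji => ⟨?_, hT⟩⟩
    rw [hr, Finsupp.single_apply, if_neg fun h => hji (β.injective h).symm, zpow_zero, mul_one] at h2
    exact h2
  have hν : ∀ j, ∃ ν T, j ≠ i → (n' = back (β j) ν * FreeGroup.of (β j) ∧ ν ∈ below (β j) T) := by
    intro j
    obtain ⟨ν, h1, h2⟩ := decomp (β j) n'
    obtain ⟨T, hT⟩ := ALL_below (β j) h1
    refine ⟨ν, T, fun hji => ⟨?_, hT⟩⟩
    rw [hn', exp_prod β hr l hn j ((hl j).2 hji), zpow_one, ← hn'] at h2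
    exact h2
  choose ρ Tρ hρ using hρ
  choose ν Tν hν using hν
  obtain ⟨M, hM⟩ : ∃ M : ℕ, 1 ≤ M ∧ ∀ j, Tρ j ≤ M ∧ Tν j ≤ M := by
    obtain ⟨S, hS⟩ : ∃ S : ℕ, ∀ j, (Tρ j).natAbs + (Tν j).natAbs ≤ S :=
      ⟨∑ j, ((Tρ j).natAbs + (Tν j).natAbs), fun j =>
        Finset.single_le_sum (f := fun j => (Tρ j).natAbs + (Tν j).natAbs)
          (fun _ _ => Nat.zero_le _) (Finset.mem_univ j)⟩
    refine ⟨1 + S, by omega, fun j => ?_⟩
    have := hS j
    constructor <;> omega
  set w : FreeGroup V := (l.map (pk β i M)).prod with hw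
  refine ⟨w * n' * w⁻¹ * n'⁻¹, ?_, ?_, ?_⟩
  · have : (others r i).Normal := Subgroup.normalClosure_normal
    exact Subgroup.mul_mem _ (this.conj_mem _ hn'o w) (Subgroup.inv_mem _ hn'o)
  · have h : ∀ x y : Multiplicative (V →₀ ℤ), x * y * x⁻¹ * y⁻¹ = 1 := fun x y => by
      rw [mul_comm x y]
      group
    have h' : expSum V (w * n' * w⁻¹ * n'⁻¹) = 1 := by
      rw [map_mul (expSum V), map_mul (expSum V), map_mul (expSum V), map_inv (expSum V),
        map_inv (expSum V), h]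
    rw [h']
    rfl
  · intro j hji
    obtain ⟨a, ha, b, hb, h⟩ := w_top β (Ne.symm hji) M l hn ((hl j).2 hji)
    exact one_dir β (Ne.symm hji) M hM.1 (r i) w n' a b (ρ j) (ν j) ha hb
      (below_mono _ (by have := (hM.2 j).1; omega) (hρ j hji).2)
      (below_mono _ (by have := (hM.2 j).2; omega) (hν j hji).2) h (hρ j hji).1 (hν j hji).1

end Run7.h178.SL
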